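import Pool.Agent.Q96.UN.Zact
import Pool.Agent.Q96.KP.Two

/-!
# Complex functions and closure in `L¹` in one slot
-/

set_option autoImplicit false
set_option linter.unusedSectionVars false
set_option linter.unusedVariables false

open MeasureTheory Filter Topology

noncomputable section

namespace Pool.Agent.Q96.UN

open Pool.Agent.TH784.KE (Cz Cz_add Cz_smul)
open Pool.Agent.Q96.KP (Cz_closed' bxc_one bx_one)
open Pool.Agent.W761.Box (bx bxc BM Good1 bxc_add bxc_sub bxc_mul dz orb)

variable {X : Type*} [MeasurableSpace X] {μ : Measure X} [IsProbabilityMeasure μ]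
variable {A : Type*} [AddCommGroup A] {Φ : A → X → X}
variable {J : Type*} [Fintype J] [DecidableEq J]

/-- the maps -/
def gg (Φ : A → X → X) (a : J → A) (j : J) (n : Fin 1 → ℕ) : X → X := Φ ((n 0) • a j)

theorem gg_mp (hΦ : Act μ Φ) (a : J → A) (j : J) (n : Fin 1 → ℕ) :
    MeasurePreserving (gg Φ a j n) μ μ := hΦ.mp _

theorem iter_eq (hΦ : Act μ Φ) (b : A) (n : ℕ) (x : X) : (Φ b)^[n] x = Φ (n • b) x := by
  induction n with
  | zero => simp [hΦ.zero]
  | succ n ih => rw [Function.iterate_succ_apply', ih, ← hΦ.add, succ_nsmul, add_comm]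

theorem gg_good (hΦ : Act μ Φ) (a : J → A) (j : J) : Good1 μ (gg Φ a j) := by
  intro H hH hb
  obtain ⟨C, hC⟩ := hb
  filter_upwards [dz (P := μ) 1 (fun _ => Φ (a j)) (fun _ => hΦ.mp _) H hH C hC] with x hx
  obtain ⟨L, hL⟩ := hx
  refine ⟨L, hL.congr fun N => ?_⟩
  congr 1
  funext m
  show H ((Φ (a j))^[m 0] x) = H (Φ ((m 0) • a j) x)
  rw [iter_eq hΦ]

/-- a slot in which the function `f` forces convergence to zero -/
def Slot (μ : Measure X) (Φ : A → X → X) (a : J → A) (j : J) (f : X → ℂ) : Prop :=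
  ∀ G : J → X → ℂ, (∀ l, BM (G l)) → Cz μ (gg Φ a) (Function.update G j f)

theorem Slot.add {a : J → A} {j : J} {f f' : X → ℂ} (h : Slot μ Φ a j f) (h' : Slot μ Φ a j f') :
    Slot μ Φ a j (f + f') := fun G hG => Cz_add (h G hG) (h' G hG)

theorem Slot.smul {a : J → A} {j : J} {f : X → ℂ} (c : ℂ) (h : Slot μ Φ a j f) :
    Slot μ Φ a j (c • f) := fun G hG => Cz_smul c (h G hG)

theorem Slot.zero {a : J → A} {j : J} : Slot μ Φ a j (0 : X → ℂ) := by
  intro G hG
  refine Eventually.of_forall fun x => ?_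
  refine tendsto_const_nhds.congr fun N => ?_
  rw [bxc]
  simp [Pool.Agent.W761.Box.prod_update]

theorem Slot.sum {a : J → A} {j : J} {ι : Type*} (s : Finset ι) {f : ι → X → ℂ}
    (h : ∀ i, Slot μ Φ a j (f i)) : Slot μ Φ a j (∑ i ∈ s, f i) := by
  classical
  induction s using Finset.induction_on with
  | empty => simpa using Slot.zero
  | insert i s hi ih =>
    rw [Finset.sum_insert hi]
    exact (h i).add ih

theorem BM.const_smul {f : X → ℂ} (hf : BM f) (c : ℂ) : BM (c • f) := by
  obtain ⟨hm, C, hC⟩ := hf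
  refine ⟨hm.const_smul c, ‖c‖ * C, fun x => ?_⟩
  rw [Pi.smul_apply, norm_smul]
  exact mul_le_mul_of_nonneg_left (hC x) (norm_nonneg _)

theorem BM.sum {ι : Type*} (s : Finset ι) {f : ι → X → ℂ} (h : ∀ i, BM (f i)) :
    BM (∑ i ∈ s, f i) := by
  classical
  induction s using Finset.induction_on with
  | empty =>
    rw [Finset.sum_empty]
    exact ⟨measurable_const, 0, fun x => by simp⟩
  | insert i s hi ih =>
    rw [Finset.sum_insert hi]
    obtain ⟨m1, C1, h1⟩ := h i
    obtain ⟨m2, C2, h2⟩ := ih
    exact ⟨m1.add m2, C1 + C2, fun x => (norm_add_le _ _).trans (add_le_add (h1 x) (h2 x))⟩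

theorem BM.ofReal {u : X → ℝ} (hu : B1 u) : BM fun x => (u x : ℂ) :=
  ⟨Complex.measurable_ofReal.comp hu.1, 1, fun x => by
    rw [Complex.norm_real]
    exact hu.2 x⟩

/-- a bounded complex function in terms of real functions bounded by one -/
theorem split {f : X → ℂ} (hf : BM f) : ∃ (c : ℂ) (u v : X → ℝ), B1 u ∧ B1 v ∧
    f = c • (fun x => (u x : ℂ)) + (c * Complex.I) • fun x => (v x : ℂ) := by
  obtain ⟨hm, C, hC⟩ := hf
  set D : ℝ := |C| + 1 with hD
  have hD0 : 0 < D := by positivity
  have hb : ∀ x, ‖f x‖ ≤ D := fun x => ((hC x).trans (le_abs_self _)).trans (by linarith)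
  refine ⟨(D : ℂ), fun x => (f x).re / D, fun x => (f x).im / D,
    ⟨(Complex.measurable_re.comp hm).div_const _, fun x => ?_⟩,
    ⟨(Complex.measurable_im.comp hm).div_const _, fun x => ?_⟩, ?_⟩
  · rw [abs_div, abs_of_pos hD0, div_le_one hD0]
    exact (Complex.abs_re_le_norm _).trans (hb x)
  · rw [abs_div, abs_of_pos hD0, div_le_one hD0]
    exact (Complex.abs_im_le_norm _).trans (hb x)
  · funext x
    simp only [Pi.add_apply, Pi.smul_apply, smul_eq_mul]
    push_cast
    have hD' : (D : ℂ) ≠ 0 := by exact_mod_cast hD0.ne'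
    field_simp
    rw [mul_comm Complex.I]
    exact (Complex.re_add_im _).symm

/-- from real to complex functions in the other slots -/
theorem Slot.of_real {a : J → A} {j : J} {u : X → ℝ} (hu : B1 u)
    (h : ∀ F : J → X → ℝ, (∀ l, B1 (F l)) → F j = u →
      Cz μ (gg Φ a) fun l x => ((F l x : ℝ) : ℂ)) :
    Slot μ Φ a j fun x => (u x : ℂ) := by
  have key : ∀ (S : Finset J), j ∉ S → ∀ G : J → X → ℂ, (∀ l ∈ S, BM (G l)) →
      (∀ l ∉ S, ∃ v, B1 v ∧ G l = fun x => ((v x : ℝ) : ℂ)) → G j = (fun x => ((u x : ℝ) : ℂ)) →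
      Cz μ (gg Φ a) G := by
    intro S
    induction S using Finset.induction_on with
    | empty =>
      intro _ G _ hG hj
      choose v hv hGv using fun l => hG l (Finset.notMem_empty l)
      have e : G = fun l x => ((v l x : ℝ) : ℂ) := funext fun l => hGv l
      rw [e]
      refine h v hv ?_
      funext x
      have := congrFun (hj.symm.trans (hGv j)) x
      exact_mod_cast this.symm
    | insert s S hs ih =>
      intro hjS G hG1 hG2 hj
      rw [Finset.mem_insert, not_or] at hjS
      obtain ⟨c, v, w, hv, hw, he⟩ := split (hG1 s (Finset.mem_insert_self _ _))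
      have h1 : ∀ v : X → ℝ, B1 v → Cz μ (gg Φ a) (Function.update G s fun x => (v x : ℂ)) := by
        intro v hv
        refine ih hjS.2 _ (fun l hl => ?_) (fun l hl => ?_) ?_
        · have hne : l ≠ s := fun h' => by
            rw [h'] at hl
            exact hs hl
          rw [Function.update_of_ne hne]
          exact hG1 l (Finset.mem_insert_of_mem hl)
        · by_cases hls : l = s
          · subst hls
            rw [Function.update_self]
            exact ⟨v, hv, rfl⟩
          · rw [Function.update_of_ne hls]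
            exact hG2 l fun h' => (Finset.mem_insert.1 h').elim hls hl
        · rw [Function.update_of_ne hjS.1]
          exact hj
      have h2 := Cz_add (Cz_smul c (h1 v hv)) (Cz_smul (c * Complex.I) (h1 w hw))
      rw [← he, Function.update_eq_self] at h2
      exact h2
  intro G hG
  refine key (Finset.univ.erase j) (Finset.notMem_erase _ _) _ (fun l hl => ?_) (fun l hl => ?_) ?_
  · rw [Function.update_of_ne (Finset.ne_of_mem_erase hl)]
    exact hG l
  · have : l = j := by
      by_contra hne
      exact hl (Finset.mem_erase.2 ⟨hne, Finset.mem_univ _⟩)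
    subst this
    rw [Function.update_self]
    exact ⟨u, hu, rfl⟩
  · rw [Function.update_self]

/-- closure in `L¹` -/
theorem Slot.closed (hΦ : Act μ Φ) {a : J → A} {j : J} {f : X → ℂ} (hf : BM f)
    (h : ∀ ε : ℝ, 0 < ε → ∃ f' : X → ℂ, BM f' ∧ ∫ x, ‖f x - f' x‖ ∂μ ≤ ε ∧ Slot μ Φ a j f') :
    Slot μ Φ a j f := by
  intro G hG
  refine Cz_closed' (gg_mp hΦ a) hG (gg_good hΦ a j) hf fun ε hε => ?_
  obtain ⟨f', h1, h2, h3⟩ := h ε hε
  exact ⟨f', h1, h2, h3 G hG⟩

/-- replacing the functions one after the other -/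
theorem tele {a : J → A} {f e : J → X → ℂ} (hf : ∀ j, BM (f j)) (he : ∀ j, BM (e j))
    (h : ∀ j, Slot μ Φ a j fun x => f j x - e j x) :
    ∀ᵐ x ∂μ, Tendsto (fun N => bxc 1 N fun n => (∏ j, f j (gg Φ a j n x) -
      ∏ j, e j (gg Φ a j n x))) atTop (𝓝 0) := by
  classical
  have key : ∀ t : Finset J, t ≠ ∅ → ∀ᵐ x ∂μ, Tendsto (fun N => bxc 1 N fun n =>
      (∏ j ∈ t, (f j (gg Φ a j n x) - e j (gg Φ a j n x))) *
        ∏ j ∈ Finset.univ \ t, e j (gg Φ a j n x)) atTop (𝓝 0) := by
    intro t ht
    obtain ⟨j₀, hj₀⟩ := Finset.nonempty_of_ne_empty ht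
    have hz := h j₀ (fun j => if j ∈ t then (fun x => f j x - e j x) else e j) (fun v => by
        by_cases hv : v ∈ t
        · simp only [hv, if_true]
          obtain ⟨m₁, C₁, b₁⟩ := hf v
          obtain ⟨m₂, C₂, b₂⟩ := he v
          exact ⟨m₁.sub m₂, C₁ + C₂, fun x => (norm_sub_le _ _).trans
            (add_le_add (b₁ x) (b₂ x))⟩
        · simp only [hv, if_false]
          exact he v)
    have e1 : Function.update (fun j => if j ∈ t then (fun x => f j x - e j x) else e j) j₀
        (fun x => f j₀ x - e j₀ x) = fun j => if j ∈ t then (fun x => f j x - e j x) else e j := by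
      rw [Function.update_eq_iff]
      exact ⟨by simp only [hj₀, if_true], fun _ _ => rfl⟩
    rw [e1] at hz
    filter_upwards [hz] with x hx
    refine hx.congr fun N => ?_
    congr 1
    funext n
    rw [← Finset.prod_mul_prod_compl t, ← Finset.compl_eq_univ_sdiff]
    congr 1
    · refine Finset.prod_congr rfl fun j hj => ?_
      rw [if_pos hj]
    · refine Finset.prod_congr rfl fun j hj => ?_
      rw [if_neg (Finset.mem_compl.1 hj)]
  have hall : ∀ᵐ x ∂μ, ∀ t : Finset J, t ≠ ∅ → Tendsto (fun N => bxc 1 N fun n =>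
      (∏ j ∈ t, (f j (gg Φ a j n x) - e j (gg Φ a j n x))) *
        ∏ j ∈ Finset.univ \ t, e j (gg Φ a j n x)) atTop (𝓝 0) := by
    rw [ae_all_iff]
    intro t
    by_cases ht : t = ∅
    · exact Eventually.of_forall fun x h => absurd ht h
    · filter_upwards [key t ht] with x hx _
      exact hx
  filter_upwards [hall] with x hx
  have hsum := tendsto_finsetSum ((Finset.univ : Finset J).powerset.erase ∅) fun t ht =>
    hx t (Finset.ne_of_mem_erase ht)
  rw [Finset.sum_const_zero] at hsum
  refine hsum.congr fun N => ?_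
  rw [← Pool.Agent.TH784.KE.bxc_sum]
  congr 1
  funext n
  have h1 := Finset.prod_add (fun j => f j (gg Φ a j n x) - e j (gg Φ a j n x))
    (fun j => e j (gg Φ a j n x)) (Finset.univ : Finset J)
  have h2 : ∏ j, (f j (gg Φ a j n x) - e j (gg Φ a j n x) + e j (gg Φ a j n x)) =
      ∏ j, f j (gg Φ a j n x) := Finset.prod_congr rfl fun j _ => by ring
  rw [h2, ← Finset.add_sum_erase _ _ (Finset.empty_mem_powerset _)] at h1
  rw [h1, Finset.prod_empty, one_mul, Finset.sdiff_empty]
  ring

/-- the other slots as a list -/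
def others (a : J → A) (F : J → X → ℝ) (j : J) : List (A × (X → ℝ)) :=
  (Finset.univ.erase j).toList.map fun l => (a l, F l)

/-- summable cube correlations give a slot -/
theorem Slot.of_summable (hΦ : Act μ Φ) {a : J → A} {j : J} {u : X → ℝ} (hu : B1 u)
    (hs : Summable fun e : ℕ => WD μ Φ (2 ^ e) (a j :: (Finset.univ.erase j).toList.map
      fun l => a j - a l) u ^ ((1 : ℝ) / 2 ^ (Fintype.card J - 1))) :
    Slot μ Φ a j fun x => (u x : ℂ) := by
  refine Slot.of_real hu fun F hF hFj => ?_
  have h1 := ae_real hΦ (a j) hu (others a F j) (fun p hp => by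
    obtain ⟨l, _, rfl⟩ := List.mem_map.1 hp
    exact hF l) (by
      have e1 : (others a F j).length = Fintype.card J - 1 := by
        unfold others
        rw [List.length_map, Finset.length_toList, Finset.card_erase_of_mem (Finset.mem_univ j),
          Finset.card_univ]
      have e2 : ((others a F j).map fun p => a j - p.1) =
          (Finset.univ.erase j).toList.map fun l => a j - a l := by
        unfold others
        rw [List.map_map]
        rfl
      rw [e1, e2]
      exact hs)
  filter_upwards [h1] with x hx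
  have hx' := (Complex.continuous_ofReal.tendsto _).comp hx
  rw [Complex.ofReal_zero] at hx'
  refine (hx'.comp Pool.Agent.Q96.KP.tendsto_coord).congr fun N => ?_
  rw [bxc_one, Function.comp_apply, Function.comp_apply]
  push_cast
  congr 1
  refine Finset.sum_congr rfl fun n _ => ?_
  rw [← Finset.mul_prod_erase _ _ (Finset.mem_univ j), hFj]
  show ((u (Φ (n • a j) x) * ((others a F j).map fun p => p.2 (Φ (n • p.1) x)).prod : ℝ) : ℂ) = _
  rw [Complex.ofReal_mul]
  congr 1
  unfold others
  rw [List.map_map]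
  have e3 : ((Finset.univ.erase j).toList.map
      ((fun p : A × (X → ℝ) => p.2 (Φ (n • p.1) x)) ∘ fun l => (a l, F l))).prod =
      ∏ l ∈ Finset.univ.erase j, F l (Φ (n • a l) x) := by
    rw [Finset.prod_map_toList]
    rfl
  rw [e3]
  push_cast
  rfl

end Pool.Agent.Q96.UN
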