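import Pool.Agent.Q96.UN.Vdc

/-!
# Multiple averages of commuting maps and cube correlations of one function
-/

set_option autoImplicit false
set_option linter.unusedSectionVars false

open MeasureTheory Filter Topology

noncomputable section

namespace Pool.Agent.Q96.UN

variable {X : Type*} [MeasurableSpace X] {μ : Measure X} [IsProbabilityMeasure μ]
variable {A : Type*} [AddCommGroup A]

/-- measure preserving action of a commutative group -/
structure Act (μ : Measure X) (Φ : A → X → X) : Prop where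
  mp : ∀ a, MeasurePreserving (Φ a) μ μ
  add : ∀ a b x, Φ (a + b) x = Φ a (Φ b x)
  zero : ∀ x, Φ 0 x = x

/-- the products -/
def pr (Φ : A → X → X) (a : A) (f : X → ℝ) (L : List (A × (X → ℝ))) (n : ℕ) (x : X) : ℝ :=
  f (Φ (n • a) x) * (L.map fun p => p.2 (Φ (n • p.1) x)).prod

/-- multiplicative derivative -/
def dd (Φ : A → X → X) (s : ℕ) (a : A) (f : X → ℝ) (x : X) : ℝ := f x * f (Φ (s • a) x)

/-- measurable and bounded by one -/
def B1 (f : X → ℝ) : Prop := Measurable f ∧ ∀ x, |f x| ≤ 1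

variable {Φ : A → X → X}

theorem B1.comp {f : X → ℝ} (hf : B1 f) (hΦ : Act μ Φ) (a : A) : B1 fun x => f (Φ a x) :=
  ⟨hf.1.comp (hΦ.mp a).measurable, fun x => hf.2 _⟩

theorem B1.mul {f g : X → ℝ} (hf : B1 f) (hg : B1 g) : B1 fun x => f x * g x :=
  ⟨hf.1.mul hg.1, fun x => by
    rw [abs_mul]
    calc |f x| * |g x| ≤ 1 * 1 := mul_le_mul (hf.2 x) (hg.2 x) (abs_nonneg _) zero_le_one
      _ = 1 := one_mul 1⟩

theorem B1.dd {f : X → ℝ} (hf : B1 f) (hΦ : Act μ Φ) (s : ℕ) (a : A) :
    B1 (Pool.Agent.Q96.UN.dd Φ s a f) := hf.mul (hf.comp hΦ _)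

theorem list_B1 (hΦ : Act μ Φ) (n : ℕ) : ∀ L : List (A × (X → ℝ)), (∀ p ∈ L, B1 p.2) →
    B1 fun x => (L.map fun p => p.2 (Φ (n • p.1) x)).prod
  | [], _ => by
    simp only [List.map_nil, List.prod_nil]
    exact ⟨measurable_const, fun _ => by norm_num⟩
  | p :: L, h => by
    have h1 := list_B1 hΦ n L fun q hq => h q (List.mem_cons_of_mem _ hq)
    have h2 := (h p List.mem_cons_self).comp hΦ (n • p.1)
    simp only [List.map_cons, List.prod_cons]
    exact h2.mul h1

theorem pr_B1 (hΦ : Act μ Φ) (a : A) {f : X → ℝ} (hf : B1 f) {L : List (A × (X → ℝ))}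
    (hL : ∀ p ∈ L, B1 p.2) (n : ℕ) : B1 (pr Φ a f L n) :=
  (hf.comp hΦ _).mul (list_B1 hΦ n L hL)

theorem dd_pt (hΦ : Act μ Φ) (a : A) (f : X → ℝ) (n s : ℕ) (x : X) :
    f (Φ (n • a) x) * f (Φ ((n + s) • a) x) = dd Φ s a f (Φ (n • a) x) := by
  unfold dd
  rw [add_comm n s, add_smul, hΦ.add]

theorem list_dd (hΦ : Act μ Φ) (n s : ℕ) (x : X) : ∀ L : List (A × (X → ℝ)),
    (L.map fun p => p.2 (Φ (n • p.1) x)).prod * (L.map fun p => p.2 (Φ ((n + s) • p.1) x)).prod =
      ((L.map fun p => (p.1, dd Φ s p.1 p.2)).map fun p => p.2 (Φ (n • p.1) x)).prod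
  | [] => by simp
  | p :: L => by
    have h1 := list_dd hΦ n s x L
    simp only [List.map_cons, List.prod_cons] at h1 ⊢
    rw [← h1, ← dd_pt hΦ]
    ring

theorem pr_mul (hΦ : Act μ Φ) (a : A) (f : X → ℝ) (L : List (A × (X → ℝ))) (n s : ℕ) (x : X) :
    pr Φ a f L n x * pr Φ a f L (n + s) x =
      pr Φ a (dd Φ s a f) (L.map fun p => (p.1, dd Φ s p.1 p.2)) n x := by
  unfold pr
  rw [← list_dd hΦ, ← dd_pt hΦ]
  ring

theorem sub_pt (hΦ : Act μ Φ) (a b : A) (n : ℕ) (x : X) :
    Φ (n • a) x = Φ (n • (a - b)) (Φ (n • b) x) := by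
  rw [← hΦ.add, ← smul_add, sub_add_cancel]

theorem list_shift (hΦ : Act μ Φ) (b : A) (n : ℕ) (x : X) : ∀ L : List (A × (X → ℝ)),
    (L.map fun p => p.2 (Φ (n • p.1) x)).prod =
      ((L.map fun p => (p.1 - b, p.2)).map fun p => p.2 (Φ (n • p.1) (Φ (n • b) x))).prod
  | [] => by simp
  | p :: L => by
    have h1 := list_shift hΦ b n x L
    simp only [List.map_cons, List.prod_cons] at h1 ⊢
    rw [h1, ← sub_pt hΦ p.1 b n x]

theorem pr_shift (hΦ : Act μ Φ) (a b : A) (F F₁ : X → ℝ) (L : List (A × (X → ℝ))) (n : ℕ)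
    (x : X) : pr Φ a F ((b, F₁) :: L) n x =
      F₁ (Φ (n • b) x) * pr Φ (a - b) F (L.map fun p => (p.1 - b, p.2)) n (Φ (n • b) x) := by
  unfold pr
  rw [List.map_cons, List.prod_cons, list_shift hΦ b n x L, sub_pt hΦ a b n x]
  ring

theorem int_comp (hΦ : Act μ Φ) (a : A) {g : X → ℝ} (hg : Measurable g) :
    ∫ x, g (Φ a x) ∂μ = ∫ x, g x ∂μ := by
  have h3 := integral_map (μ := μ) (φ := Φ a) (f := g) (hΦ.mp a).measurable.aemeasurable
    hg.aestronglyMeasurable
  rw [(hΦ.mp a).map_eq] at h3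
  exact h3.symm

theorem int_shift (hΦ : Act μ Φ) (a b : A) {F F₁ : X → ℝ} (hF : B1 F) (hF₁ : B1 F₁)
    {L : List (A × (X → ℝ))} (hL : ∀ p ∈ L, B1 p.2) (n : ℕ) :
    ∫ x, pr Φ a F ((b, F₁) :: L) n x ∂μ =
      ∫ x, F₁ x * pr Φ (a - b) F (L.map fun p => (p.1 - b, p.2)) n x ∂μ := by
  have h1 : B1 (pr Φ (a - b) F (L.map fun p => (p.1 - b, p.2)) n) := by
    refine pr_B1 hΦ _ hF (fun p hp => ?_) n
    obtain ⟨q, hq, rfl⟩ := List.mem_map.1 hp
    exact hL q hq
  rw [← int_comp hΦ (n • b) (hF₁.mul h1).1]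
  congr 1
  funext x
  exact pr_shift hΦ a b F F₁ L n x

/-- mean squares of the averages -/
def EN (μ : Measure X) (Φ : A → X → X) (N : ℕ) (a : A) (f : X → ℝ)
    (L : List (A × (X → ℝ))) : ℝ :=
  ∫ x, ((N : ℝ)⁻¹ * ∑ n ∈ Finset.range N, pr Φ a f L n x) ^ 2 ∂μ

/-- averaged cube correlations -/
def WD (μ : Measure X) (Φ : A → X → X) (H : ℕ) : List A → (X → ℝ) → ℝ
  | [], f => |∫ x, f x ∂μ|
  | b :: D, f => (H : ℝ)⁻¹ * ∑ s ∈ Finset.range H, WD μ Φ H D (dd Φ s b f)

theorem WD_nonneg (H : ℕ) : ∀ (D : List A) (f : X → ℝ), 0 ≤ WD μ Φ H D f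
  | [], f => abs_nonneg _
  | b :: D, f => mul_nonneg (by positivity) (Finset.sum_nonneg fun s _ => WD_nonneg H D _)

/-- the iterated bound -/
def th (H : ℕ) : ℕ → ℝ → ℝ
  | 0, w => 16 / H + 4 * w
  | k + 1, w => 16 / H + 4 * Real.sqrt (th H k w)

theorem th_nonneg (H : ℕ) : ∀ (k : ℕ) {w : ℝ}, 0 ≤ w → 0 ≤ th H k w
  | 0, w, hw => by
    unfold th
    positivity
  | k + 1, w, _ => by
    unfold th
    positivity

theorem th_jensen {H : ℕ} (hH : 1 ≤ H) : ∀ (k : ℕ) {w : ℕ → ℝ}, (∀ s, 0 ≤ w s) →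
    (H : ℝ)⁻¹ * ∑ s ∈ Finset.range H, th H k (w s) ≤
      th H k ((H : ℝ)⁻¹ * ∑ s ∈ Finset.range H, w s)
  | 0, w, _ => by
    have hH' : (0 : ℝ) < H := by exact_mod_cast hH
    unfold th
    rw [Finset.sum_add_distrib, Finset.sum_const, Finset.card_range, nsmul_eq_mul,
      ← Finset.mul_sum]
    refine le_of_eq ?_
    field_simp
  | k + 1, w, hw => by
    have hH' : (0 : ℝ) < H := by exact_mod_cast hH
    have ih := th_jensen hH k hw
    unfold th
    rw [Finset.sum_add_distrib, Finset.sum_const, Finset.card_range, nsmul_eq_mul,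
      ← Finset.mul_sum, mul_add]
    have e1 : (H : ℝ)⁻¹ * (H * (16 / H)) = 16 / H := by field_simp
    rw [e1]
    have h1 : (H : ℝ)⁻¹ * ∑ s ∈ Finset.range H, Real.sqrt (th H k (w s)) ≤
        Real.sqrt (th H k ((H : ℝ)⁻¹ * ∑ s ∈ Finset.range H, w s)) := by
      refine Real.le_sqrt_of_sq_le (le_trans ?_ ih)
      have h2 := sq_sum_le_card_mul_sum_sq (s := Finset.range H)
        (f := fun s => Real.sqrt (th H k (w s)))
      rw [Finset.card_range] at h2
      have h3 : ∑ s ∈ Finset.range H, Real.sqrt (th H k (w s)) ^ 2 =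
          ∑ s ∈ Finset.range H, th H k (w s) :=
        Finset.sum_congr rfl fun s _ => Real.sq_sqrt (th_nonneg H k (hw s))
      rw [h3] at h2
      rw [mul_pow, inv_pow, inv_mul_le_iff₀ (by positivity)]
      refine h2.trans (le_of_eq ?_)
      field_simp
    calc 16 / (H : ℝ) + (H : ℝ)⁻¹ * (4 * ∑ s ∈ Finset.range H, Real.sqrt (th H k (w s))) =
        16 / (H : ℝ) + 4 * ((H : ℝ)⁻¹ * ∑ s ∈ Finset.range H, Real.sqrt (th H k (w s))) := by
          ring
      _ ≤ _ := by linarith

theorem EN_le (hΦ : Act μ Φ) {N H : ℕ} (hH : 1 ≤ H) (hHN : H * H ≤ N) :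
    ∀ (k : ℕ) (L : List (A × (X → ℝ))), L.length = k → (∀ p ∈ L, B1 p.2) → ∀ (a : A) (f : X → ℝ),
      B1 f → EN μ Φ N a f L ≤ th H k (WD μ Φ H (a :: L.map fun p => a - p.1) f) := by
  have hN1 : 1 ≤ N := le_trans (by nlinarith) hHN
  have hN : (0 : ℝ) < N := by exact_mod_cast hN1
  have hH' : (0 : ℝ) < H := by exact_mod_cast hH
  intro k
  induction k with
  | zero =>
    intro L hLk hL a f hf
    obtain rfl := List.length_eq_zero_iff.1 hLk
    have hu : ∀ n, B1 (pr Φ a f [] n) := fun n => pr_B1 hΦ a hf hL n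
    have h1 := vdc (μ := μ) (u := pr Φ a f []) (fun n => (hu n).1) (fun n => (hu n).2)
      (κ := fun s => |∫ x, dd Φ s a f x ∂μ|) (fun s => abs_nonneg _) hH hHN (fun s _ r _ => by
        have h2 : ∀ n ∈ Finset.range N, ∫ x, pr Φ a f [] (n + r) x * pr Φ a f [] (n + r + s) x ∂μ =
            ∫ x, dd Φ s a f x ∂μ := by
          intro n _
          rw [← int_comp hΦ ((n + r) • a) (hf.dd hΦ s a).1]
          congr 1
          funext x
          rw [pr_mul hΦ]
          simp [pr]
        rw [Finset.sum_congr rfl h2, Finset.sum_const, Finset.card_range, nsmul_eq_mul]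
        exact mul_le_mul_of_nonneg_left (le_abs_self _) hN.le)
    unfold EN
    refine h1.trans ?_
    unfold th
    simp only [List.map_nil, WD]
    have h3 : (8 : ℝ) / H ≤ 16 / H := div_le_div_of_nonneg_right (by norm_num) hH'.le
    have h4 : 4 / (H : ℝ) * ∑ s ∈ Finset.range H, |∫ x, dd Φ s a f x ∂μ| =
        4 * ((H : ℝ)⁻¹ * ∑ s ∈ Finset.range H, |∫ x, dd Φ s a f x ∂μ|) := by ring
    linarith
  | succ k ih =>
    intro L hLk hL a f hf
    obtain ⟨⟨b, f₁⟩, L', rfl⟩ := List.exists_cons_of_length_eq_add_one hLk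
    have hL' : ∀ p ∈ L', B1 p.2 := fun p hp => hL p (List.mem_cons_of_mem _ hp)
    have hf₁ : B1 f₁ := hL (b, f₁) List.mem_cons_self
    have hk : L'.length = k := by simpa using hLk
    -- the new data
    let Ls : ℕ → List (A × (X → ℝ)) := fun s =>
      (L'.map fun p => (p.1, dd Φ s p.1 p.2)).map fun p => (p.1 - b, p.2)
    have hLs : ∀ s, ∀ p ∈ Ls s, B1 p.2 := by
      intro s p hp
      obtain ⟨q, hq, rfl⟩ := List.mem_map.1 hp
      obtain ⟨q', hq', rfl⟩ := List.mem_map.1 hq
      exact (hL' q' hq').dd hΦ s _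
    have hlen : ∀ s, (Ls s).length = k := fun s => by
      simp only [Ls, List.length_map]
      exact hk
    have hih : ∀ s, EN μ Φ N (a - b) (dd Φ s a f) (Ls s) ≤ th H k
        (WD μ Φ H ((a - b) :: L'.map fun p => a - p.1) (dd Φ s a f)) := by
      intro s
      have h1 := ih (Ls s) (hlen s) (hLs s) (a - b) (dd Φ s a f) (hf.dd hΦ s a)
      have e : ((Ls s).map fun p => a - b - p.1) = L'.map fun p => a - p.1 := by
        simp only [Ls, List.map_map]
        refine List.map_congr_left fun p _ => ?_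
        simp
      rw [e] at h1
      exact h1
    have hu : ∀ n, B1 (pr Φ a f ((b, f₁) :: L') n) := fun n => pr_B1 hΦ a hf hL n
    have hEN0 : ∀ s, 0 ≤ EN μ Φ N (a - b) (dd Φ s a f) (Ls s) := fun s =>
      integral_nonneg fun x => sq_nonneg _
    have h1 := vdc (μ := μ) (u := pr Φ a f ((b, f₁) :: L')) (fun n => (hu n).1)
      (fun n => (hu n).2)
      (κ := fun s => Real.sqrt (EN μ Φ N (a - b) (dd Φ s a f) (Ls s)) + 2 / H)
      (fun s => by positivity) hH hHN (fun s _ r hr => by
        set v : ℕ → X → ℝ := pr Φ (a - b) (dd Φ s a f) (Ls s) with hv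
        have hvB : ∀ n, B1 (v n) := fun n => pr_B1 hΦ _ (hf.dd hΦ s a) (hLs s) n
        set g : X → ℝ := dd Φ s b f₁ with hg
        have hgB : B1 g := hf₁.dd hΦ s b
        have h2 : ∀ n ∈ Finset.range N, ∫ x, pr Φ a f ((b, f₁) :: L') (n + r) x *
            pr Φ a f ((b, f₁) :: L') (n + r + s) x ∂μ = ∫ x, g x * v (n + r) x ∂μ := by
          intro n _
          have h3 := int_shift (μ := μ) hΦ a b (hf.dd hΦ s a) hgB
            (L := L'.map fun p => (p.1, dd Φ s p.1 p.2)) (fun p hp => by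
              obtain ⟨q, hq, rfl⟩ := List.mem_map.1 hp
              exact (hL' q hq).dd hΦ s _) (n + r)
          rw [hv]
          show _ = ∫ x, g x * pr Φ (a - b) (dd Φ s a f) (Ls s) (n + r) x ∂μ
          rw [← h3]
          congr 1
          funext x
          rw [pr_mul hΦ]
          rfl
        rw [Finset.sum_congr rfl h2]
        have hint : ∀ n, Integrable (fun x => g x * v n x) μ := fun n =>
          Integrable.of_bound (hgB.mul (hvB n)).1.aestronglyMeasurable 1
            (Eventually.of_forall (hgB.mul (hvB n)).2)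
        rw [← integral_finsetSum _ fun n _ => hint _]
        -- pointwise estimate
        have hpt : ∀ x, ∑ n ∈ Finset.range N, g x * v (n + r) x ≤
            |∑ n ∈ Finset.range N, v n x| + 2 * H := by
          intro x
          rw [← Finset.mul_sum]
          have h4 := shift_sum (fun n => (hvB n).2 x) N r
          have h5 : |∑ n ∈ Finset.range N, v (n + r) x| ≤
              |∑ n ∈ Finset.range N, v n x| + 2 * H := by
            have h6 : |∑ n ∈ Finset.range N, v (n + r) x| ≤ |∑ n ∈ Finset.range N, v n x| +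
                |∑ n ∈ Finset.range N, v n x - ∑ n ∈ Finset.range N, v (n + r) x| := by
              have := abs_sub_abs_le_abs_sub (∑ n ∈ Finset.range N, v (n + r) x)
                (∑ n ∈ Finset.range N, v n x)
              rw [abs_sub_comm] at this
              linarith
            have h7 : (r : ℝ) ≤ H := by exact_mod_cast hr.le
            linarith
          calc g x * ∑ n ∈ Finset.range N, v (n + r) x ≤
              |g x * ∑ n ∈ Finset.range N, v (n + r) x| := le_abs_self _
            _ = |g x| * |∑ n ∈ Finset.range N, v (n + r) x| := abs_mul _ _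
            _ ≤ 1 * |∑ n ∈ Finset.range N, v (n + r) x| :=
                mul_le_mul_of_nonneg_right (hgB.2 x) (abs_nonneg _)
            _ ≤ _ := by rw [one_mul]; exact h5
        have hSm : Measurable fun x => ∑ n ∈ Finset.range N, v n x :=
          Finset.measurable_fun_sum _ fun n _ => (hvB n).1
        have hSb : ∀ x, |∑ n ∈ Finset.range N, v n x| ≤ N := fun x =>
          (Finset.abs_sum_le_sum_abs _ _).trans
            ((Finset.sum_le_sum fun n _ => (hvB n).2 x).trans (by simp))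
        have hSi : Integrable (fun x => |∑ n ∈ Finset.range N, v n x|) μ :=
          Integrable.of_bound hSm.abs.aestronglyMeasurable N (Eventually.of_forall fun x => by
            rw [Real.norm_eq_abs, abs_abs]
            exact hSb x)
        have h8 : ∫ x, (∑ n ∈ Finset.range N, g x * v (n + r) x) ∂μ ≤
            ∫ x, (|∑ n ∈ Finset.range N, v n x| + 2 * H) ∂μ :=
          integral_mono (integrable_finsetSum _ fun n _ => hint _)
            (hSi.add (integrable_const _)) hpt
        refine h8.trans ?_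
        rw [integral_add hSi (integrable_const _)]
        have h9 : ∫ x, |∑ n ∈ Finset.range N, v n x| ∂μ ≤
            N * Real.sqrt (EN μ Φ N (a - b) (dd Φ s a f) (Ls s)) := by
          have h10 : (∫ x, |(N : ℝ)⁻¹ * ∑ n ∈ Finset.range N, v n x| ∂μ) ^ 2 ≤
              EN μ Φ N (a - b) (dd Φ s a f) (Ls s) := by
            have hsq : Integrable (fun x => |(N : ℝ)⁻¹ * ∑ n ∈ Finset.range N, v n x| ^ 2) μ :=
              Integrable.of_bound ((hSm.const_mul _).abs.pow_const 2).aestronglyMeasurable 1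
                (Eventually.of_forall fun x => by
                  rw [Real.norm_eq_abs, abs_pow, abs_abs]
                  refine pow_le_one₀ (abs_nonneg _) ?_
                  rw [abs_mul, abs_inv, abs_of_pos hN, inv_mul_le_iff₀ hN, mul_one]
                  exact hSb x)
            have hi1 : Integrable (fun x => |(N : ℝ)⁻¹ * ∑ n ∈ Finset.range N, v n x|) μ := by
              have := hSi.const_mul (N : ℝ)⁻¹
              refine this.congr (Eventually.of_forall fun x => ?_)
              show (N : ℝ)⁻¹ * |∑ n ∈ Finset.range N, v n x| =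
                |(N : ℝ)⁻¹ * ∑ n ∈ Finset.range N, v n x|
              rw [abs_mul, abs_inv, abs_of_pos hN]
            have h11 := (Even.convexOn_pow (n := 2) even_two).map_integral_le (μ := μ)
              (g := fun x : ℝ => x ^ 2) (by fun_prop) isClosed_univ
              (Eventually.of_forall fun x => Set.mem_univ _) hi1 hsq
            refine h11.trans (le_of_eq ?_)
            unfold EN
            congr 1
            funext x
            exact sq_abs _
          have h12 : ∫ x, |(N : ℝ)⁻¹ * ∑ n ∈ Finset.range N, v n x| ∂μ ≤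
              Real.sqrt (EN μ Φ N (a - b) (dd Φ s a f) (Ls s)) := Real.le_sqrt_of_sq_le h10
          have h13 : ∫ x, |∑ n ∈ Finset.range N, v n x| ∂μ =
              N * ∫ x, |(N : ℝ)⁻¹ * ∑ n ∈ Finset.range N, v n x| ∂μ := by
            rw [← integral_const_mul]
            congr 1
            funext x
            rw [abs_mul, abs_inv, abs_of_pos hN]
            field_simp
          rw [h13]
          exact mul_le_mul_of_nonneg_left h12 hN.le
        have h14 : ∫ _x : X, (2 * (H : ℝ)) ∂μ = 2 * H := by simp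
        rw [h14]
        have h15 : 2 * (H : ℝ) ≤ N * (2 / H) := by
          have hHN' : (H : ℝ) * H ≤ N := by exact_mod_cast hHN
          rw [mul_div_assoc', le_div_iff₀ hH']
          nlinarith
        rw [mul_add]
        linarith)
    unfold EN
    refine h1.trans ?_
    rw [Finset.sum_add_distrib, Finset.sum_const, Finset.card_range, nsmul_eq_mul]
    have e1 : (H : ℝ) * (2 / H) = 2 := by field_simp
    rw [e1]
    have h16 : ∑ s ∈ Finset.range H, Real.sqrt (EN μ Φ N (a - b) (dd Φ s a f) (Ls s)) ≤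
        ∑ s ∈ Finset.range H, Real.sqrt (th H k
          (WD μ Φ H ((a - b) :: L'.map fun p => a - p.1) (dd Φ s a f))) :=
      Finset.sum_le_sum fun s _ => Real.sqrt_le_sqrt (hih s)
    have h17 := th_jensen (H := H) hH (k + 1)
      (w := fun s => WD μ Φ H ((a - b) :: L'.map fun p => a - p.1) (dd Φ s a f))
      (fun s => WD_nonneg H _ _)
    have e2 : (H : ℝ)⁻¹ * ∑ s ∈ Finset.range H,
        WD μ Φ H ((a - b) :: L'.map fun p => a - p.1) (dd Φ s a f) =
        WD μ Φ H (a :: ((b, f₁) :: L').map fun p => a - p.1) f := rfl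
    rw [e2] at h17
    refine le_trans ?_ h17
    have h19 : (H : ℝ)⁻¹ * ∑ s ∈ Finset.range H, th H (k + 1)
        (WD μ Φ H ((a - b) :: L'.map fun p => a - p.1) (dd Φ s a f)) =
        16 / H + 4 / H * ∑ s ∈ Finset.range H, Real.sqrt (th H k
          (WD μ Φ H ((a - b) :: L'.map fun p => a - p.1) (dd Φ s a f))) := by
      simp only [th]
      rw [Finset.sum_add_distrib, Finset.sum_const, Finset.card_range, nsmul_eq_mul,
        ← Finset.mul_sum]
      field_simp
    rw [h19]
    have h18 := mul_le_mul_of_nonneg_left h16 (show (0 : ℝ) ≤ 4 / H by positivity)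
    have e4 : 8 / (H : ℝ) + 4 / H * (∑ s ∈ Finset.range H,
        Real.sqrt (EN μ Φ N (a - b) (dd Φ s a f) (Ls s)) + 2) = 16 / H + 4 / H *
        ∑ s ∈ Finset.range H, Real.sqrt (EN μ Φ N (a - b) (dd Φ s a f) (Ls s)) := by
      ring
    rw [e4]
    linarith

end Pool.Agent.Q96.UN
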