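import Pool.Agent.Q96.UN.Rel

/-!
# Powers of one invertible map
-/

set_option autoImplicit false
set_option linter.unusedSectionVars false
set_option linter.unusedVariables false

open MeasureTheory Filter Topology
open scoped ENNReal

noncomputable section

namespace Pool.Agent.Q96.UN

open Pool.Agent.W761.Box (bx bxc BM)

section gen

variable {X : Type*} {mY mX : MeasurableSpace X} {μ : Measure X} [IsProbabilityMeasure μ]
variable {A : Type*} [AddCommGroup A] {Φ : A → X → X}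
variable {J : Type*} [Fintype J] [DecidableEq J]

/-- limits of sums of products of functions of the factor and uniform functions -/
def Appr {X : Type*} {mX : MeasurableSpace X} (μ : Measure X) (mY : MeasurableSpace X)
    (P : (X → ℝ) → Prop) (f : X → ℂ) : Prop :=
  ∀ ε : ℝ, 0 < ε → ∃ (n : ℕ) (u : Fin n → X → ℝ) (v : Fin n → X → ℂ), (∀ i, P (u i)) ∧
    (∀ i, Measurable[mY] (v i) ∧ ∃ C : ℝ, ∀ x, ‖v i x‖ ≤ C) ∧
    ∫ x, ‖f x - ∑ i, v i x * (u i x : ℂ)‖ ∂μ ≤ ε

theorem Appr.congr {P : (X → ℝ) → Prop} {f g : X → ℂ} (h : Appr μ mY P f) (hfg : f =ᵐ[μ] g) :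
    Appr μ mY P g := by
  intro ε hε
  obtain ⟨n, u, v, h1, h2, h3⟩ := h ε hε
  refine ⟨n, u, v, h1, h2, le_trans (le_of_eq (integral_congr_ae ?_)) h3⟩
  filter_upwards [hfg] with x hx
  rw [hx]

theorem slot_appr (hΦ : Act μ Φ) (hY : mY ≤ mX) {a : J → A} {j : J} {P : (X → ℝ) → Prop}
    (hP : ∀ u, P u → B1 u)
    (hslot : ∀ u, P u → ∀ v : X → ℝ, Measurable[mY] v → (∀ x, |v x| ≤ 1) →
      Slot μ Φ a j fun x => ((u x * v x : ℝ) : ℂ))
    {f : X → ℂ} (hf : BM f) (h : Appr μ mY P f) : Slot μ Φ a j f := by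
  refine Slot.closed hΦ hf fun ε hε => ?_
  obtain ⟨n, u, v, hu, hv, hle⟩ := h ε hε
  have key : ∀ i, ∃ g : X → ℂ, BM g ∧ Slot μ Φ a j g ∧ ∀ x, g x = v i x * (u i x : ℂ) := by
    intro i
    obtain ⟨hvm, C, hC⟩ := hv i
    obtain ⟨c, v₁, v₂, m1, m2, b1, b2, hd⟩ := splitY hvm hC
    have hB : ∀ w : X → ℝ, Measurable[mY] w → (∀ x, |w x| ≤ 1) →
        BM fun x => ((u i x * w x : ℝ) : ℂ) := fun w hw hw1 =>
      BM.ofReal ((hP _ (hu i)).mul ⟨hw.mono hY le_rfl, hw1⟩)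
    refine ⟨c • (fun x => ((u i x * v₁ x : ℝ) : ℂ)) +
      (c * Complex.I) • fun x => ((u i x * v₂ x : ℝ) : ℂ), ?_, ?_, fun x => ?_⟩
    · obtain ⟨p1, C1, q1⟩ := BM.const_smul (hB v₁ m1 b1) c
      obtain ⟨p2, C2, q2⟩ := BM.const_smul (hB v₂ m2 b2) (c * Complex.I)
      exact ⟨p1.add p2, C1 + C2, fun x => (norm_add_le _ _).trans (add_le_add (q1 x) (q2 x))⟩
    · exact ((hslot _ (hu i) v₁ m1 b1).smul c).add ((hslot _ (hu i) v₂ m2 b2).smul _)
    · rw [hd]
      simp only [Pi.add_apply, Pi.smul_apply, smul_eq_mul]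
      push_cast
      ring
  choose g hg1 hg2 hg3 using key
  refine ⟨∑ i, g i, BM.sum _ hg1, ?_, Slot.sum _ hg2⟩
  refine le_trans (le_of_eq ?_) hle
  congr 1
  funext x
  rw [Finset.sum_apply, Finset.sum_congr rfl fun i _ => hg3 i x]

/-- from slots to averages -/
theorem slot_lim {a : J → A} {j : J} {f : J → X → ℂ} (hf : ∀ l, BM (f l))
    (h : Slot μ Φ a j (f j)) :
    ∀ᵐ x ∂μ, Tendsto (fun N : ℕ => (N : ℂ)⁻¹ * ∑ n ∈ Finset.Icc 1 N,
      ∏ l, f l (Φ (n • a l) x)) atTop (𝓝 0) := by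
  have h1 := h f hf
  rw [Function.update_eq_self] at h1
  choose hfm C hC using hf
  have hN : Tendsto (fun (N : ℕ) (_ : Fin 1) => N) atTop atTop :=
    tendsto_atTop_atTop.2 fun b => ⟨b 0, fun N hN j => by
      rw [Subsingleton.elim j 0]
      exact hN⟩
  filter_upwards [h1] with x hx
  refine icc_of_range (C := ∏ l, C l) (fun n => ?_) ?_
  · rw [norm_prod]
    exact Finset.prod_le_prod (fun l _ => norm_nonneg _) fun l _ => hC l _
  · refine (hx.comp hN).congr fun N => ?_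
    rw [Function.comp_apply, Pool.Agent.Q96.KP.bxc_one]
    rfl

theorem tele_lim {a : J → A} {f e : J → X → ℂ} (hf : ∀ l, BM (f l)) (he : ∀ l, BM (e l))
    (h : ∀ j, Slot μ Φ a j fun x => f j x - e j x) :
    ∀ᵐ x ∂μ, Tendsto (fun N : ℕ => (N : ℂ)⁻¹ * ∑ n ∈ Finset.Icc 1 N,
      (∏ l, f l (Φ (n • a l) x) - ∏ l, e l (Φ (n • a l) x))) atTop (𝓝 0) := by
  have h1 := tele hf he h
  choose hfm C hC using hf
  choose hem D hD using he
  have hN : Tendsto (fun (N : ℕ) (_ : Fin 1) => N) atTop atTop :=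
    tendsto_atTop_atTop.2 fun b => ⟨b 0, fun N hN j => by
      rw [Subsingleton.elim j 0]
      exact hN⟩
  filter_upwards [h1] with x hx
  refine icc_of_range (C := ∏ l, C l + ∏ l, D l) (fun n => ?_) ?_
  · refine (norm_sub_le _ _).trans ?_
    rw [norm_prod, norm_prod]
    exact add_le_add (Finset.prod_le_prod (fun l _ => norm_nonneg _) fun l _ => hC l _)
      (Finset.prod_le_prod (fun l _ => norm_nonneg _) fun l _ => hD l _)
  · refine (hx.comp hN).congr fun N => ?_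
    rw [Function.comp_apply, Pool.Agent.Q96.KP.bxc_one]
    rfl

end gen

variable {X : Type*} {mY mX : MeasurableSpace X} {μ : Measure X} [IsProbabilityMeasure μ]

/-- the action of the integers -/
def zact (T : Equiv.Perm X) (n : ℤ) (x : X) : X := (T ^ n) x

theorem zact_act {T : Equiv.Perm X} (hT : MeasurePreserving T μ μ) (hT' : Measurable T.symm) :
    Act μ (zact T) := by
  have hs : MeasurePreserving T.symm μ μ :=
    MeasurePreserving.symm (⟨T, hT.measurable, hT'⟩ : X ≃ᵐ X) hT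
  refine ⟨fun n => ?_, fun n k x => ?_, fun x => ?_⟩
  · have hpow : ∀ (S : Equiv.Perm X), MeasurePreserving S μ μ → ∀ k : ℕ,
        MeasurePreserving (fun x => (S ^ k) x) μ μ := by
      intro S hS k
      have h1 := hS.iterate k
      have e : (fun x => (S ^ k) x) = (S : X → X)^[k] := by
        rw [← Equiv.Perm.coe_pow]
      rw [e]
      exact h1
    obtain ⟨k, rfl | rfl⟩ := n.eq_nat_or_neg
    · exact hpow T hT k
    · have e : zact T (-(k : ℤ)) = fun x => (T.symm ^ k) x := by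
        funext x
        unfold zact
        rw [zpow_neg, zpow_natCast]
        rfl
      rw [e]
      exact hpow T.symm hs k
  · unfold zact
    rw [zpow_add]
    rfl
  · unfold zact
    simp

theorem zact_smul (T : Equiv.Perm X) (s : ℕ) (x : X) : zact T (s • (1 : ℤ)) x = T^[s] x := by
  unfold zact
  rw [nsmul_eq_mul, mul_one, zpow_natCast, Equiv.Perm.coe_pow]

/-- uniform functions -/
def QU {X : Type*} {mX : MeasurableSpace X} (μ : Measure X) (mY : MeasurableSpace X)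
    (T : Equiv.Perm X) (m : ℕ) (u : X → ℝ) : Prop :=
  Measurable[mX] u ∧ (∀ x, |u x| ≤ 1) ∧ Summable fun e : ℕ =>
    RD μ mY (zact T) (2 ^ e) (List.replicate m 1) u ^ ((1 : ℝ) / 2 ^ (m - 1))

theorem slot_z {T : Equiv.Perm X} (hT : MeasurePreserving T μ μ) (hT' : Measurable T.symm)
    (hY : mY ≤ mX) (hTY : Measurable[mY, mY] T) {m : ℕ} {a : Fin m → ℤ} (ha : ∀ j, a j ≠ 0)
    (hai : Function.Injective a) (j : Fin m) {f : X → ℂ} (hf : BM f)
    (h : Appr μ mY (QU μ mY T m) f) : Slot μ (zact T) a j f := by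
  have hA := zact_act hT hT'
  refine slot_appr hA hY (fun u hu => ⟨hu.1, hu.2.1⟩) (fun u hu v hv hv1 => ?_) hf h
  have huv : B1 fun x => u x * v x := B1.mul ⟨hu.1, hu.2.1⟩ ⟨hv.mono hY le_rfl, hv1⟩
  refine Slot.of_summable hA huv ?_
  have hm : 1 ≤ m := Nat.one_le_iff_ne_zero.2 fun h0 => by
    subst h0
    exact j.elim0
  set D : List ℤ := a j :: (Finset.univ.erase j).toList.map fun l => a j - a l with hD
  have hlen : D.length = m := by
    rw [hD, List.length_cons, List.length_map, Finset.length_toList,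
      Finset.card_erase_of_mem (Finset.mem_univ j), Finset.card_univ, Fintype.card_fin]
    omega
  have hD0 : ∀ d ∈ D, d ≠ 0 := by
    intro d hd
    rw [hD, List.mem_cons] at hd
    rcases hd with rfl | hd
    · exact ha j
    · obtain ⟨l, hl, rfl⟩ := List.mem_map.1 hd
      rw [Finset.mem_toList, Finset.mem_erase] at hl
      exact sub_ne_zero.2 fun h' => hl.1 (hai h').symm
  have hq : (0 : ℝ) ≤ (1 : ℝ) / 2 ^ (m - 1) := by positivity
  rw [Fintype.card_fin]
  refine WD_dir_summable hA hD0 huv.1 hq ?_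
  rw [hlen]
  refine WD_le_RD_summable hA hY (fun d hd s => ?_) ⟨hu.1, hu.2.1⟩ hv hv1 hq hu.2.2
  rw [List.eq_of_mem_replicate hd]
  have e : zact T (s • (1 : ℤ)) = T^[s] := funext fun x => zact_smul T s x
  rw [e]
  exact @Measurable.iterate X mY T hTY s

theorem zact_mul (T : Equiv.Perm X) (a : ℤ) (n : ℕ) (x : X) :
    zact T (n • a) x = (T ^ (a * n)) x := by
  unfold zact
  rw [nsmul_eq_mul, mul_comm]

theorem ae_repl {J : Type*} [Finite J] {Φ : ℤ → X → X} (hΦ : Act μ Φ) (a : J → ℤ)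
    {f g : J → X → ℂ} (hfg : ∀ j, f j =ᵐ[μ] g j) :
    ∀ᵐ x ∂μ, ∀ (n : ℕ) (j : J), f j (Φ (n • a j) x) = g j (Φ (n • a j) x) := by
  rw [ae_all_iff]
  intro n
  rw [ae_all_iff]
  intro j
  exact (hΦ.mp _).quasiMeasurePreserving.ae (hfg j)

/-- one uniform function -/
theorem main_one {T : Equiv.Perm X} (hT : MeasurePreserving T μ μ) (hT' : Measurable T.symm)
    (hY : mY ≤ mX) (hTY : Measurable[mY, mY] T) {m : ℕ} {a : Fin m → ℤ} (ha : ∀ j, a j ≠ 0)
    (hai : Function.Injective a) {f : Fin m → X → ℂ} (hf : ∀ j, MemLp (f j) ∞ μ) (j : Fin m)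
    (h : Appr μ mY (QU μ mY T m) (f j)) :
    ∀ᵐ x ∂μ, Tendsto (fun N : ℕ => (N : ℂ)⁻¹ * ∑ n ∈ Finset.Icc 1 N,
      ∏ l, f l ((T ^ (a l * n)) x)) atTop (𝓝 0) := by
  choose g hg hfg using fun j => Pool.Agent.Q96.KP.BM_of_memLp' (hf j)
  have hA := zact_act hT hT'
  have h1 := slot_lim hg (slot_z hT hT' hY hTY ha hai j (hg j) (h.congr (hfg j)))
  filter_upwards [h1, ae_repl hA a hfg] with x hx hx2
  refine hx.congr fun N => ?_
  congr 1
  refine Finset.sum_congr rfl fun n _ => Finset.prod_congr rfl fun l _ => ?_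
  rw [← hx2, zact_mul]

/-- replacing functions -/
theorem main_all {T : Equiv.Perm X} (hT : MeasurePreserving T μ μ) (hT' : Measurable T.symm)
    (hY : mY ≤ mX) (hTY : Measurable[mY, mY] T) {m : ℕ} {a : Fin m → ℤ} (ha : ∀ j, a j ≠ 0)
    (hai : Function.Injective a) {f e : Fin m → X → ℂ} (hf : ∀ j, MemLp (f j) ∞ μ)
    (he : ∀ j, MemLp (e j) ∞ μ) (h : ∀ j, Appr μ mY (QU μ mY T m) fun x => f j x - e j x) :
    ∀ᵐ x ∂μ, Tendsto (fun N : ℕ => (N : ℂ)⁻¹ * ∑ n ∈ Finset.Icc 1 N,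
      (∏ l, f l ((T ^ (a l * n)) x) - ∏ l, e l ((T ^ (a l * n)) x))) atTop (𝓝 0) := by
  choose g hg hfg using fun j => Pool.Agent.Q96.KP.BM_of_memLp' (hf j)
  choose g' hg' heg using fun j => Pool.Agent.Q96.KP.BM_of_memLp' (he j)
  have hA := zact_act hT hT'
  have hb : ∀ j, BM fun x => g j x - g' j x := fun j => by
    obtain ⟨m1, C1, b1⟩ := hg j
    obtain ⟨m2, C2, b2⟩ := hg' j
    exact ⟨m1.sub m2, C1 + C2, fun x => (norm_sub_le _ _).trans (add_le_add (b1 x) (b2 x))⟩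
  have h1 := tele_lim hg hg' fun j => slot_z hT hT' hY hTY ha hai j (hb j) ((h j).congr (by
    filter_upwards [hfg j, heg j] with x hx hx'
    rw [hx, hx']))
  filter_upwards [h1, ae_repl hA a hfg, ae_repl hA a heg] with x hx hx2 hx3
  refine hx.congr fun N => ?_
  congr 1
  refine Finset.sum_congr rfl fun n _ => ?_
  congr 1
  · refine Finset.prod_congr rfl fun l _ => ?_
    rw [← hx2, zact_mul]
  · refine Finset.prod_congr rfl fun l _ => ?_
    rw [← hx3, zact_mul]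

/-- convergence from the factor -/
theorem char_conv {T : Equiv.Perm X} (hT : MeasurePreserving T μ μ) (hT' : Measurable T.symm)
    (hY : mY ≤ mX) {m : ℕ} {a : Fin m → ℤ} {f : Fin m → X → ℂ} (hf : ∀ j, MemLp (f j) ∞ μ)
    (h2 : ∀ e : Fin m → X → ℂ, (∀ j, Measurable[mY] (e j) ∧ ∃ C : ℝ, ∀ x, ‖e j x‖ ≤ C) →
      (∀ j, MemLp (e j) ∞ μ) → (∀ j, μ[fun x => f j x - e j x | mY] =ᵐ[μ] 0) →
      ∀ᵐ x ∂μ, Tendsto (fun N : ℕ => (N : ℂ)⁻¹ * ∑ n ∈ Finset.Icc 1 N,
        (∏ j, f j ((T ^ (a j * n)) x) - ∏ j, e j ((T ^ (a j * n)) x))) atTop (𝓝 0))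
    (hbase : ∀ g : Fin m → X → ℂ, (∀ j, Measurable[mY] (g j) ∧ ∃ C : ℝ, ∀ x, ‖g j x‖ ≤ C) →
      ∀ᵐ x ∂μ, ∃ L : ℂ, Tendsto (fun N : ℕ => (N : ℂ)⁻¹ * ∑ n ∈ Finset.Icc 1 N,
        ∏ j, g j ((T ^ (a j * n)) x)) atTop (𝓝 L)) :
    ∀ᵐ x ∂μ, ∃ L : ℂ, Tendsto (fun N : ℕ => (N : ℂ)⁻¹ * ∑ n ∈ Finset.Icc 1 N,
      ∏ j, f j ((T ^ (a j * n)) x)) atTop (𝓝 L) := by
  choose g hg hfg using fun j => Pool.Agent.Q96.KP.BM_of_memLp' (hf j)
  choose e he heY hee _ using fun j => Pool.Agent.TH784.KE.exists_cond (μ := μ) hY (hg j)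
  have hei : ∀ j, Integrable (e j) μ := fun j => by
    obtain ⟨hm, C, hC⟩ := he j
    exact Integrable.of_bound hm.aestronglyMeasurable C (Eventually.of_forall hC)
  have hmem : ∀ j, MemLp (e j) ∞ μ := fun j => by
    obtain ⟨hm, C, hC⟩ := he j
    exact memLp_top_of_bound hm.aestronglyMeasurable C (Eventually.of_forall hC)
  have hfi : ∀ j, Integrable (f j) μ := fun j => (hf j).integrable le_top
  have h3 := h2 e (fun j => ⟨heY j, (he j).2⟩) hmem fun j => by
    have h4 := condExp_sub (hfi j) (hei j) mY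
    have h5 : μ[e j | mY] = e j :=
      condExp_of_stronglyMeasurable hY (heY j).stronglyMeasurable (hei j)
    have h6 : e j =ᵐ[μ] μ[f j | mY] := (hee j).trans (condExp_congr_ae (hfg j).symm)
    rw [h5] at h4
    refine h4.trans ?_
    filter_upwards [h6] with x hx
    rw [Pi.sub_apply, hx, sub_self]
    rfl
  filter_upwards [h3, hbase e fun j => ⟨heY j, (he j).2⟩] with x hx hx'
  obtain ⟨L, hL⟩ := hx'
  refine ⟨L, ?_⟩
  have h7 := hx.add hL
  rw [zero_add] at h7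
  refine h7.congr fun N => ?_
  rw [Finset.sum_sub_distrib]
  ring

end Pool.Agent.Q96.UN
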