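import Pool.Agent.Q96.UN.Cx

/-!
# Relative cube correlations, and averages over `1, …, N`
-/

set_option autoImplicit false
set_option linter.unusedSectionVars false
set_option linter.unusedVariables false

open MeasureTheory Filter Topology
open scoped ENNReal

noncomputable section

namespace Pool.Agent.Q96.UN

open Pool.Agent.W761.Box (bx bxc BM)

variable {X : Type*} {mY mX : MeasurableSpace X} {μ : Measure X} [IsProbabilityMeasure μ]
variable {A : Type*} [AddCommGroup A] {Φ : A → X → X}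

/-- relative cube correlations -/
def RD {X : Type*} {mX : MeasurableSpace X} (μ : Measure X) (mY : MeasurableSpace X)
    {A : Type*} [AddCommGroup A] (Φ : A → X → X) (H : ℕ) : List A → (X → ℝ) → ℝ
  | [], f => ∫ x, |(μ[f | mY]) x| ∂μ
  | b :: D, f => (H : ℝ)⁻¹ * ∑ s ∈ Finset.range H, RD μ mY Φ H D (dd Φ s b f)

theorem WD_le_RD (hΦ : Act μ Φ) (hY : mY ≤ mX) (H : ℕ) : ∀ (D : List A),
    (∀ d ∈ D, ∀ s : ℕ, Measurable[mY, mY] (Φ (s • d))) → ∀ {u v : X → ℝ}, B1 u →
    Measurable[mY] v → (∀ x, |v x| ≤ 1) →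
    WD μ Φ H D (fun x => u x * v x) ≤ RD μ mY Φ H D u
  | [], _, u, v, hu, hv, hv1 => by
    unfold WD RD
    have hui : Integrable u μ := Integrable.of_bound hu.1.aestronglyMeasurable 1
      (Eventually.of_forall hu.2)
    have hvs : StronglyMeasurable[mY] v := hv.stronglyMeasurable
    have huv : Integrable (fun x => v x * u x) μ :=
      Integrable.of_bound ((hv.mono hY le_rfl).mul hu.1).aestronglyMeasurable 1
        (Eventually.of_forall fun x => by
          rw [Real.norm_eq_abs, abs_mul]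
          calc |v x| * |u x| ≤ 1 * 1 := mul_le_mul (hv1 x) (hu.2 x) (abs_nonneg _) zero_le_one
            _ = 1 := one_mul 1)
    have h1 : ∫ x, u x * v x ∂μ = ∫ x, v x * (μ[u | mY]) x ∂μ := by
      have h2 := condExp_mul_of_stronglyMeasurable_left (m := mY) (μ := μ) hvs huv hui
      have h3 := integral_congr_ae h2
      rw [integral_condExp hY] at h3
      calc ∫ x, u x * v x ∂μ = ∫ x, (v * u) x ∂μ := by
            congr 1
            funext x
            rw [Pi.mul_apply]
            ring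
        _ = ∫ x, (v * (μ[u | mY])) x ∂μ := h3
        _ = _ := rfl
    rw [h1]
    refine (abs_integral_le_integral_abs).trans ?_
    have hci : Integrable (μ[u | mY]) μ := integrable_condExp
    refine integral_mono_of_nonneg (Eventually.of_forall fun x => abs_nonneg _) hci.abs
      (Eventually.of_forall fun x => ?_)
    show |v x * (μ[u | mY]) x| ≤ |(μ[u | mY]) x|
    rw [abs_mul]
    calc |v x| * |(μ[u | mY]) x| ≤ 1 * |(μ[u | mY]) x| :=
          mul_le_mul_of_nonneg_right (hv1 x) (abs_nonneg _)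
      _ = _ := one_mul _
  | b :: D, hD, u, v, hu, hv, hv1 => by
    unfold WD RD
    refine mul_le_mul_of_nonneg_left (Finset.sum_le_sum fun s _ => ?_) (by positivity)
    have h1 := WD_le_RD hΦ hY H D (fun d hd => hD d (List.mem_cons_of_mem _ hd)) (hu.dd hΦ s b)
      (v := fun x => v x * v (Φ (s • b) x)) (hv.mul (hv.comp (hD b List.mem_cons_self s)))
      (fun x => by
        rw [abs_mul]
        calc |v x| * |v (Φ (s • b) x)| ≤ 1 * 1 :=
              mul_le_mul (hv1 x) (hv1 _) (abs_nonneg _) zero_le_one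
          _ = 1 := one_mul 1)
    refine le_trans (le_of_eq ?_) h1
    congr 1
    funext x
    unfold dd
    ring

theorem WD_le_RD_summable (hΦ : Act μ Φ) (hY : mY ≤ mX) {D : List A}
    (hD : ∀ d ∈ D, ∀ s : ℕ, Measurable[mY, mY] (Φ (s • d))) {u v : X → ℝ} (hu : B1 u)
    (hv : Measurable[mY] v) (hv1 : ∀ x, |v x| ≤ 1) {q : ℝ} (hq : 0 ≤ q)
    (hs : Summable fun e : ℕ => RD μ mY Φ (2 ^ e) D u ^ q) :
    Summable fun e : ℕ => WD μ Φ (2 ^ e) D (fun x => u x * v x) ^ q := by
  refine Summable.of_nonneg_of_le (fun e => ?_) (fun e => ?_) hs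
  · have := WD_nonneg (μ := μ) (Φ := Φ) (2 ^ e) D fun x => u x * v x
    positivity
  · exact Real.rpow_le_rpow (WD_nonneg _ _ _) (WD_le_RD hΦ hY _ D hD hu hv hv1) hq

/-- splitting a bounded complex function measurable for the factor -/
theorem splitY {v : X → ℂ} (hv : Measurable[mY] v) {C : ℝ} (hC : ∀ x, ‖v x‖ ≤ C) :
    ∃ (c : ℂ) (v₁ v₂ : X → ℝ), Measurable[mY] v₁ ∧ Measurable[mY] v₂ ∧ (∀ x, |v₁ x| ≤ 1) ∧
      (∀ x, |v₂ x| ≤ 1) ∧ ∀ x, v x = c * v₁ x + c * Complex.I * v₂ x := by
  obtain ⟨c, v₁, v₂, h1, h2, h3⟩ := @split X mY v ⟨hv, C, hC⟩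
  exact ⟨c, v₁, v₂, h1.1, h2.1, h1.2, h2.2, fun x => by
    have := congrFun h3 x
    simpa using this⟩

/-- from averages over `[0, N)` to averages over `[1, N]` -/
theorem icc_of_range {b : ℕ → ℂ} {C : ℝ} (hb : ∀ n, ‖b n‖ ≤ C)
    (h : Tendsto (fun N : ℕ => (N : ℂ)⁻¹ * ∑ n ∈ Finset.range N, b n) atTop (𝓝 0)) :
    Tendsto (fun N : ℕ => (N : ℂ)⁻¹ * ∑ n ∈ Finset.Icc 1 N, b n) atTop (𝓝 0) := by
  have h1 : ∀ N : ℕ, ∑ n ∈ Finset.Icc 1 N, b n = ∑ n ∈ Finset.range N, b n + (b N - b 0) := by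
    intro N
    have e1 : Finset.range (N + 1) = insert 0 (Finset.Icc 1 N) := by
      ext n
      simp only [Finset.mem_range, Finset.mem_insert, Finset.mem_Icc]
      omega
    have e2 := Finset.sum_range_succ b N
    rw [e1, Finset.sum_insert (by simp)] at e2
    linear_combination e2
  have h2 : Tendsto (fun N : ℕ => (N : ℂ)⁻¹ * (b N - b 0)) atTop (𝓝 0) := by
    refine squeeze_zero_norm (a := fun N : ℕ => 2 * C / N) (fun N => ?_)
      (tendsto_const_nhds.div_atTop tendsto_natCast_atTop_atTop)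
    rw [norm_mul, norm_inv, Complex.norm_natCast, div_eq_inv_mul]
    refine mul_le_mul_of_nonneg_left ?_ (by positivity)
    refine (norm_sub_le _ _).trans ?_
    linarith [hb N, hb 0]
  have h3 := h.add h2
  rw [add_zero] at h3
  refine h3.congr fun N => ?_
  rw [h1]
  ring

end Pool.Agent.Q96.UN
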