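import Pool.Agent.Q96.UN.Ind

/-!
# Almost everywhere convergence from summable cube correlations
-/

set_option autoImplicit false
set_option linter.unusedSectionVars false
set_option linter.unusedVariables false

open MeasureTheory Filter Topology

noncomputable section

namespace Pool.Agent.Q96.UN

variable {X : Type*} [MeasurableSpace X] {μ : Measure X} [IsProbabilityMeasure μ]
variable {A : Type*} [AddCommGroup A] {Φ : A → X → X}

theorem WD_le_one (hΦ : Act μ Φ) {H : ℕ} (hH : 1 ≤ H) : ∀ (D : List A) {f : X → ℝ}, B1 f →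
    WD μ Φ H D f ≤ 1
  | [], f, hf => by
    unfold WD
    have h1 := norm_integral_le_of_norm_le_const (μ := μ) (f := f) (C := 1)
      (Eventually.of_forall fun x => hf.2 x)
    simpa using h1
  | b :: D, f, hf => by
    have hH' : (0 : ℝ) < H := by exact_mod_cast hH
    unfold WD
    rw [inv_mul_le_iff₀ hH', mul_one]
    refine (Finset.sum_le_sum fun s _ => WD_le_one hΦ hH D (hf.dd hΦ s b)).trans ?_
    simp

/-- the exponents -/
theorem th_le {H : ℕ} (hH : 1 ≤ H) {w : ℝ} (hw : 0 ≤ w) (hw1 : w ≤ 1) : ∀ k : ℕ,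
    th H k w ≤ 81 * (1 / H + w) ^ ((1 : ℝ) / 2 ^ k)
  | 0 => by
    have hH' : (0 : ℝ) < H := by exact_mod_cast hH
    unfold th
    simp only [pow_zero, div_one, Real.rpow_one]
    have : (0 : ℝ) < 1 / H := by positivity
    have e : 16 / (H : ℝ) = 16 * (1 / H) := by ring
    rw [e]
    nlinarith
  | k + 1 => by
    have ih := th_le hH hw hw1 k
    have hH' : (0 : ℝ) < H := by exact_mod_cast hH
    set y : ℝ := 1 / H + w with hy
    have hy0 : 0 < y := by positivity
    have hy2 : y ≤ 2 := by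
      have : (1 : ℝ) / H ≤ 1 := by
        rw [div_le_one hH']
        exact_mod_cast hH
      linarith
    unfold th
    set q : ℝ := (1 : ℝ) / 2 ^ (k + 1) with hq
    have hq0 : 0 < q := by positivity
    have hq1 : q ≤ 1 := by
      rw [hq, div_le_one (by positivity)]
      exact one_le_pow₀ (by norm_num)
    have h1 : Real.sqrt (th H k w) ≤ 9 * y ^ q := by
      have h2 : th H k w ≤ (9 * y ^ q) ^ 2 := by
        refine ih.trans (le_of_eq ?_)
        rw [mul_pow, ← Real.rpow_natCast (y ^ q), ← Real.rpow_mul hy0.le]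
        have e : q * ((2 : ℕ) : ℝ) = 1 / 2 ^ k := by
          rw [hq, pow_succ]
          push_cast
          field_simp
        rw [e]
        norm_num
      calc Real.sqrt (th H k w) ≤ Real.sqrt ((9 * y ^ q) ^ 2) := Real.sqrt_le_sqrt h2
        _ = 9 * y ^ q := Real.sqrt_sq (by positivity)
    have h3 : y ≤ 2 * y ^ q := by
      have h4 : y ^ (1 - q) ≤ 2 := by
        calc y ^ (1 - q) ≤ 2 ^ (1 - q) := Real.rpow_le_rpow hy0.le hy2 (by linarith)
          _ ≤ 2 ^ (1 : ℝ) := Real.rpow_le_rpow_of_exponent_le (by norm_num) (by linarith)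
          _ = 2 := Real.rpow_one 2
      have h5 : y = y ^ (1 - q) * y ^ q := by
        rw [← Real.rpow_add hy0, sub_add_cancel, Real.rpow_one]
      calc y = y ^ (1 - q) * y ^ q := h5
        _ ≤ 2 * y ^ q := mul_le_mul_of_nonneg_right h4 (by positivity)
    have h6 : 16 / (H : ℝ) ≤ 16 * y := by
      rw [hy, mul_add, mul_one_div]
      linarith
    have h7 : 0 ≤ y ^ q := by positivity
    linarith

theorem EN_nonneg (N : ℕ) (a : A) (f : X → ℝ) (L : List (A × (X → ℝ))) : 0 ≤ EN μ Φ N a f L :=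
  integral_nonneg fun x => sq_nonneg _

/-- sums over the blocks between consecutive powers of four -/
theorem summable_blocks {E β : ℕ → ℝ} (hE : ∀ N, 0 ≤ E N) (hβ : ∀ e, 0 ≤ β e) (hs : Summable β)
    (h : ∀ e N, 4 ^ e ≤ N → N < 4 ^ (e + 1) → E N ≤ β e) :
    Summable fun N : ℕ => E N / N := by
  have hn : ∀ N : ℕ, 0 ≤ E N / (N : ℝ) := fun N => div_nonneg (hE N) (Nat.cast_nonneg N)
  have h1 : ∀ K : ℕ, ∑ N ∈ Finset.range (4 ^ K), E N / (N : ℝ) ≤
      ∑ e ∈ Finset.range K, 3 * β e := by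
    intro K
    induction K with
    | zero => simp
    | succ K ih =>
      have h4 : (4 : ℕ) ^ K ≤ 4 ^ (K + 1) := Nat.pow_le_pow_right (by norm_num) (Nat.le_succ K)
      rw [← Finset.sum_range_add_sum_Ico _ h4, Finset.sum_range_succ]
      refine add_le_add ih ?_
      have hp : (0 : ℝ) < 4 ^ K := by positivity
      have h5 : ∀ N ∈ Finset.Ico (4 ^ K) (4 ^ (K + 1)), E N / (N : ℝ) ≤ β K / 4 ^ K := by
        intro N hN
        rw [Finset.mem_Ico] at hN
        have h6 : ((4 : ℝ) ^ K) ≤ N := by exact_mod_cast hN.1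
        exact div_le_div₀ (hβ K) (h K N hN.1 hN.2) hp h6
      refine (Finset.sum_le_sum h5).trans (le_of_eq ?_)
      rw [Finset.sum_const, Nat.card_Ico, nsmul_eq_mul, Nat.cast_sub h4]
      push_cast
      rw [pow_succ]
      field_simp
      ring
  refine summable_of_sum_range_le (c := ∑' e, 3 * β e) hn fun n => ?_
  have h2 : n ≤ 4 ^ n := (Nat.lt_pow_self (by norm_num)).le
  calc ∑ i ∈ Finset.range n, E i / (i : ℝ) ≤ ∑ i ∈ Finset.range (4 ^ n), E i / (i : ℝ) :=
        Finset.sum_le_sum_of_subset_of_nonneg (Finset.range_mono h2) fun i _ _ => hn i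
    _ ≤ ∑ e ∈ Finset.range n, 3 * β e := h1 n
    _ ≤ ∑' e, 3 * β e := (hs.mul_left 3).sum_le_tsum _ fun e _ => by
        have := hβ e
        positivity

/-- **Main lemma**: one function with summable cube correlations, arbitrary other functions. -/
theorem ae_real (hΦ : Act μ Φ) (a : A) {f : X → ℝ} (hf : B1 f) (L : List (A × (X → ℝ)))
    (hL : ∀ p ∈ L, B1 p.2)
    (hs : Summable fun e : ℕ =>
      WD μ Φ (2 ^ e) (a :: L.map fun p => a - p.1) f ^ ((1 : ℝ) / 2 ^ L.length)) :
    ∀ᵐ x ∂μ, Tendsto (fun N : ℕ => (N : ℝ)⁻¹ * ∑ n ∈ Finset.range N, pr Φ a f L n x) atTop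
      (𝓝 0) := by
  set q : ℝ := (1 : ℝ) / 2 ^ L.length with hq
  have hq0 : 0 < q := by positivity
  have hq1 : q ≤ 1 := by
    rw [hq, div_le_one (by positivity)]
    exact one_le_pow₀ (by norm_num)
  set W : ℕ → ℝ := fun e => WD μ Φ (2 ^ e) (a :: L.map fun p => a - p.1) f with hW
  have hW0 : ∀ e, 0 ≤ W e := fun e => WD_nonneg _ _ _
  have hW1 : ∀ e, W e ≤ 1 := fun e => WD_le_one hΦ (Nat.one_le_two_pow) _ hf
  refine del (fun n => (pr_B1 hΦ a hf hL n).1) (fun n x => (pr_B1 hΦ a hf hL n).2 x) ?_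
  refine summable_blocks (E := fun N => EN μ Φ N a f L)
    (β := fun e => 81 * (((2 : ℝ) ^ (-q)) ^ e + W e ^ q)) (fun N => EN_nonneg N a f L)
    (fun e => by
      have := hW0 e
      positivity) ?_ ?_
  · refine (Summable.add ?_ hs).mul_left 81
    refine summable_geometric_of_lt_one (by positivity) ?_
    exact Real.rpow_lt_one_of_one_lt_of_neg (by norm_num) (by linarith)
  · intro e N h1 h2
    have hHN : 2 ^ e * 2 ^ e ≤ N := by
      rw [← mul_pow]
      exact h1
    have h3 := EN_le (μ := μ) hΦ (N := N) (H := 2 ^ e) Nat.one_le_two_pow hHN L.length L rfl hL a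
      f hf
    refine h3.trans ((th_le Nat.one_le_two_pow (hW0 e) (hW1 e) _).trans ?_)
    refine mul_le_mul_of_nonneg_left ?_ (by norm_num)
    have h4 := Real.rpow_add_le_add_rpow (p := q) (a := 1 / ((2 ^ e : ℕ) : ℝ)) (b := W e)
      (by positivity) (hW0 e) hq0.le hq1
    refine h4.trans (le_of_eq ?_)
    congr 1
    have e1 : (1 : ℝ) / ((2 ^ e : ℕ) : ℝ) = 2 ^ (-(e : ℝ)) := by
      rw [Real.rpow_neg (by norm_num), Real.rpow_natCast]
      push_cast
      rw [one_div]
    rw [e1, ← Real.rpow_mul (by norm_num), ← Real.rpow_natCast, ← Real.rpow_mul (by norm_num)]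
    congr 1
    ring

end Pool.Agent.Q96.UN
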