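import Mathlib

/-!
# An integrated van der Corput inequality and the lemma of Davenport, Erdős and LeVeque
-/

set_option autoImplicit false

open MeasureTheory Filter Topology

noncomputable section

namespace Pool.Agent.Q96.UN

/-- pair sums -/
theorem sum_dist_le {H : ℕ} {κ : ℕ → ℝ} (hκ : ∀ s, 0 ≤ κ s) {r : ℕ} (hr : r < H) :
    ∑ r' ∈ Finset.range H, κ (Nat.dist r r') ≤ 2 * ∑ s ∈ Finset.range H, κ s := by
  classical
  rw [← Finset.sum_filter_add_sum_filter_not (Finset.range H) (fun r' => r ≤ r')]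
  have h1 : ∑ r' ∈ (Finset.range H).filter (fun r' => r ≤ r'), κ (Nat.dist r r') ≤
      ∑ s ∈ Finset.range H, κ s := by
    have e : ∑ r' ∈ (Finset.range H).filter (fun r' => r ≤ r'), κ (Nat.dist r r') =
        ∑ s ∈ ((Finset.range H).filter (fun r' => r ≤ r')).image (fun r' => r' - r), κ s := by
      rw [Finset.sum_image]
      · refine Finset.sum_congr rfl fun r' hr' => ?_
        rw [Nat.dist_eq_sub_of_le (Finset.mem_filter.1 hr').2]
      · intro a ha b hb hab
        have ha' := (Finset.mem_filter.1 ha).2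
        have hb' := (Finset.mem_filter.1 hb).2
        simp only at hab
        omega
    rw [e]
    refine Finset.sum_le_sum_of_subset_of_nonneg ?_ fun s _ _ => hκ s
    intro s hs
    obtain ⟨r', hr', rfl⟩ := Finset.mem_image.1 hs
    have := Finset.mem_range.1 (Finset.mem_filter.1 hr').1
    exact Finset.mem_range.2 (by omega)
  have h2 : ∑ r' ∈ (Finset.range H).filter (fun r' => ¬ r ≤ r'), κ (Nat.dist r r') ≤
      ∑ s ∈ Finset.range H, κ s := by
    have e : ∑ r' ∈ (Finset.range H).filter (fun r' => ¬ r ≤ r'), κ (Nat.dist r r') =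
        ∑ s ∈ ((Finset.range H).filter (fun r' => ¬ r ≤ r')).image (fun r' => r - r'), κ s := by
      rw [Finset.sum_image]
      · refine Finset.sum_congr rfl fun r' hr' => ?_
        have := (Finset.mem_filter.1 hr').2
        rw [Nat.dist_eq_sub_of_le_right (by omega)]
      · intro a ha b hb hab
        have ha' := (Finset.mem_filter.1 ha).2
        have hb' := (Finset.mem_filter.1 hb).2
        simp only at hab
        omega
    rw [e]
    refine Finset.sum_le_sum_of_subset_of_nonneg ?_ fun s _ _ => hκ s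
    intro s hs
    obtain ⟨r', hr', rfl⟩ := Finset.mem_image.1 hs
    exact Finset.mem_range.2 (by omega)
  linarith

theorem shift_sum {a : ℕ → ℝ} (ha : ∀ n, |a n| ≤ 1) (N r : ℕ) :
    |∑ n ∈ Finset.range N, a n - ∑ n ∈ Finset.range N, a (n + r)| ≤ 2 * r := by
  induction r with
  | zero => simp
  | succ r ih =>
    have e : ∑ n ∈ Finset.range N, a (n + r) - ∑ n ∈ Finset.range N, a (n + (r + 1)) =
        a r - a (N + r) := by
      have h1 := Finset.sum_range_sub (fun n => a (n + r)) N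
      have h2 : ∑ n ∈ Finset.range N, (a (n + 1 + r) - a (n + r)) = a (N + r) - a (0 + r) := h1
      rw [Finset.sum_sub_distrib] at h2
      have h3 : ∑ n ∈ Finset.range N, a (n + (r + 1)) = ∑ n ∈ Finset.range N, a (n + 1 + r) :=
        Finset.sum_congr rfl fun n _ => by
          congr 1
          ring
      rw [h3, zero_add] at *
      linarith
    have e2 : ∑ n ∈ Finset.range N, a n - ∑ n ∈ Finset.range N, a (n + (r + 1)) =
        (∑ n ∈ Finset.range N, a n - ∑ n ∈ Finset.range N, a (n + r)) + (a r - a (N + r)) := by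
      rw [← e]
      ring
    rw [e2]
    refine (abs_add_le _ _).trans ?_
    have h4 : |a r - a (N + r)| ≤ 2 := (abs_sub _ _).trans (by linarith [ha r, ha (N + r)])
    push_cast
    linarith

variable {X : Type*} [MeasurableSpace X] {μ : Measure X} [IsProbabilityMeasure μ]

/-- the square of a sum of bounded functions and its shifts -/
theorem pt_bound {a : ℕ → ℝ} (ha : ∀ n, |a n| ≤ 1) (N H : ℕ) :
    ((H : ℝ) * ∑ n ∈ Finset.range N, a n) ^ 2 ≤
      2 * (N * ∑ n ∈ Finset.range N, ∑ r ∈ Finset.range H, ∑ r' ∈ Finset.range H,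
        a (n + r) * a (n + r')) + 8 * (H : ℝ) ^ 4 := by
  set U := ∑ n ∈ Finset.range N, a n with hU
  set V := ∑ n ∈ Finset.range N, ∑ r ∈ Finset.range H, a (n + r) with hV
  have h1 : |(H : ℝ) * U - V| ≤ 2 * (H : ℝ) ^ 2 := by
    have e : (H : ℝ) * U - V = ∑ r ∈ Finset.range H,
        (∑ n ∈ Finset.range N, a n - ∑ n ∈ Finset.range N, a (n + r)) := by
      rw [Finset.sum_sub_distrib, Finset.sum_const, Finset.card_range, nsmul_eq_mul, hV,
        Finset.sum_comm]
    rw [e]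
    refine (Finset.abs_sum_le_sum_abs _ _).trans ?_
    refine (Finset.sum_le_sum (g := fun _ => 2 * (H : ℝ)) fun r hr => ?_).trans (le_of_eq ?_)
    · refine (shift_sum ha N r).trans ?_
      have : (r : ℝ) ≤ H := by exact_mod_cast (Finset.mem_range.1 hr).le
      linarith
    · rw [Finset.sum_const, Finset.card_range, nsmul_eq_mul]
      ring
  have h2 : V ^ 2 ≤ N * ∑ n ∈ Finset.range N, ∑ r ∈ Finset.range H, ∑ r' ∈ Finset.range H,
      a (n + r) * a (n + r') := by
    have h3 := sq_sum_le_card_mul_sum_sq (s := Finset.range N)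
      (f := fun n => ∑ r ∈ Finset.range H, a (n + r))
    rw [Finset.card_range] at h3
    refine h3.trans (le_of_eq ?_)
    congr 1
    refine Finset.sum_congr rfl fun n _ => ?_
    rw [sq, Finset.sum_mul_sum]
  have h4 : ((H : ℝ) * U - V) ^ 2 ≤ (2 * (H : ℝ) ^ 2) ^ 2 := by
    rw [← sq_abs]
    exact pow_le_pow_left₀ (abs_nonneg _) h1 2
  nlinarith [sq_nonneg ((H : ℝ) * U - 2 * V)]

/-- **van der Corput.** -/
theorem vdc {u : ℕ → X → ℝ} (hm : ∀ n, Measurable (u n)) (hb : ∀ n x, |u n x| ≤ 1)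
    {κ : ℕ → ℝ} (hκ : ∀ s, 0 ≤ κ s) {N H : ℕ} (hH : 1 ≤ H) (hHN : H * H ≤ N)
    (hc : ∀ s < H, ∀ r < H, ∑ n ∈ Finset.range N, ∫ x, u (n + r) x * u (n + r + s) x ∂μ ≤
      N * κ s) :
    ∫ x, ((N : ℝ)⁻¹ * ∑ n ∈ Finset.range N, u n x) ^ 2 ∂μ ≤
      8 / (H : ℝ) + 4 / H * ∑ s ∈ Finset.range H, κ s := by
  have hN1 : 1 ≤ N := le_trans (by nlinarith) hHN
  have hN : (0 : ℝ) < N := by exact_mod_cast hN1
  have hH' : (0 : ℝ) < H := by exact_mod_cast hH
  have hint : ∀ i j, Integrable (fun x => u i x * u j x) μ := fun i j =>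
    Integrable.of_bound ((hm i).mul (hm j)).aestronglyMeasurable 1
      (Eventually.of_forall fun x => by
        rw [Real.norm_eq_abs, abs_mul]
        calc |u i x| * |u j x| ≤ 1 * 1 :=
              mul_le_mul (hb i x) (hb j x) (abs_nonneg _) zero_le_one
          _ = 1 := one_mul 1)
  have hint3 : Integrable (fun x => ∑ n ∈ Finset.range N, ∑ r ∈ Finset.range H,
      ∑ r' ∈ Finset.range H, u (n + r) x * u (n + r') x) μ :=
    integrable_finsetSum _ fun n _ => integrable_finsetSum _ fun r _ =>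
      integrable_finsetSum _ fun r' _ => hint _ _
  have hub : ∀ x, |∑ n ∈ Finset.range N, u n x| ≤ N := fun x =>
    (Finset.abs_sum_le_sum_abs _ _).trans ((Finset.sum_le_sum fun n _ => hb n x).trans (by simp))
  have hsq : Integrable (fun x => ((H : ℝ) * ∑ n ∈ Finset.range N, u n x) ^ 2) μ := by
    refine Integrable.of_bound (((Finset.measurable_fun_sum _ fun n _ => hm n).const_mul
      (H : ℝ)).pow_const 2).aestronglyMeasurable (((H : ℝ) * N) ^ 2)
      (Eventually.of_forall fun x => ?_)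
    rw [Real.norm_eq_abs, abs_pow, abs_mul, abs_of_pos hH']
    exact pow_le_pow_left₀ (by positivity) (mul_le_mul_of_nonneg_left (hub x) hH'.le) 2
  have h1 : ∫ x, ((H : ℝ) * ∑ n ∈ Finset.range N, u n x) ^ 2 ∂μ ≤
      ∫ x, (2 * (N * ∑ n ∈ Finset.range N, ∑ r ∈ Finset.range H,
      ∑ r' ∈ Finset.range H, u (n + r) x * u (n + r') x) + 8 * (H : ℝ) ^ 4) ∂μ := by
    refine integral_mono hsq (((hint3.const_mul _).const_mul _).add (integrable_const _))
      fun x => pt_bound (fun n => hb n x) N H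
  have hpair : ∀ r ∈ Finset.range H, ∀ r' ∈ Finset.range H,
      ∑ n ∈ Finset.range N, ∫ x, u (n + r) x * u (n + r') x ∂μ ≤ N * κ (Nat.dist r r') := by
    intro r hr r' hr'
    have hr := Finset.mem_range.1 hr
    have hr' := Finset.mem_range.1 hr'
    rcases le_total r r' with h | h
    · have h3 := hc (r' - r) (by omega) r hr
      rw [Nat.dist_eq_sub_of_le h]
      refine le_trans (le_of_eq ?_) h3
      refine Finset.sum_congr rfl fun n _ => ?_
      have e : n + r + (r' - r) = n + r' := by omega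
      rw [e]
    · have h3 := hc (r - r') (by omega) r' hr'
      rw [Nat.dist_eq_sub_of_le_right h]
      refine le_trans (le_of_eq ?_) h3
      refine Finset.sum_congr rfl fun n _ => ?_
      have e : n + r' + (r - r') = n + r := by omega
      rw [e]
      congr 1
      funext x
      ring
  have h2 : ∫ x, (∑ n ∈ Finset.range N, ∑ r ∈ Finset.range H,
      ∑ r' ∈ Finset.range H, u (n + r) x * u (n + r') x) ∂μ ≤
      N * (2 * H * ∑ s ∈ Finset.range H, κ s) := by
    have e1 : ∫ x, (∑ n ∈ Finset.range N, ∑ r ∈ Finset.range H,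
        ∑ r' ∈ Finset.range H, u (n + r) x * u (n + r') x) ∂μ =
        ∑ r ∈ Finset.range H, ∑ r' ∈ Finset.range H, ∑ n ∈ Finset.range N,
          ∫ x, u (n + r) x * u (n + r') x ∂μ := by
      rw [integral_finsetSum _ fun n _ => integrable_finsetSum _ fun r _ =>
        integrable_finsetSum _ fun r' _ => hint _ _]
      have e2 : ∀ n ∈ Finset.range N, ∫ x, (∑ r ∈ Finset.range H,
          ∑ r' ∈ Finset.range H, u (n + r) x * u (n + r') x) ∂μ =
          ∑ r ∈ Finset.range H, ∑ r' ∈ Finset.range H,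
            ∫ x, u (n + r) x * u (n + r') x ∂μ := by
        intro n _
        rw [integral_finsetSum _ fun r _ => integrable_finsetSum _ fun r' _ => hint _ _]
        refine Finset.sum_congr rfl fun r _ => ?_
        rw [integral_finsetSum _ fun r' _ => hint _ _]
      rw [Finset.sum_congr rfl e2, Finset.sum_comm]
      refine Finset.sum_congr rfl fun r _ => ?_
      rw [Finset.sum_comm]
    rw [e1]
    calc ∑ r ∈ Finset.range H, ∑ r' ∈ Finset.range H, ∑ n ∈ Finset.range N,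
          ∫ x, u (n + r) x * u (n + r') x ∂μ ≤
        ∑ r ∈ Finset.range H, ∑ r' ∈ Finset.range H, N * κ (Nat.dist r r') :=
          Finset.sum_le_sum fun r hr => Finset.sum_le_sum fun r' hr' => hpair r hr r' hr'
      _ ≤ ∑ r ∈ Finset.range H, N * (2 * ∑ s ∈ Finset.range H, κ s) := by
          refine Finset.sum_le_sum fun r hr => ?_
          rw [← Finset.mul_sum]
          exact mul_le_mul_of_nonneg_left (sum_dist_le hκ (Finset.mem_range.1 hr)) hN.le
      _ = N * (2 * H * ∑ s ∈ Finset.range H, κ s) := by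
          rw [Finset.sum_const, Finset.card_range, nsmul_eq_mul]
          ring
  have h3 : ∫ x, (2 * (N * ∑ n ∈ Finset.range N, ∑ r ∈ Finset.range H,
      ∑ r' ∈ Finset.range H, u (n + r) x * u (n + r') x) + 8 * (H : ℝ) ^ 4) ∂μ =
      2 * (N * ∫ x, (∑ n ∈ Finset.range N, ∑ r ∈ Finset.range H,
      ∑ r' ∈ Finset.range H, u (n + r) x * u (n + r') x) ∂μ) + 8 * (H : ℝ) ^ 4 := by
    rw [integral_add ((hint3.const_mul _).const_mul _) (integrable_const _), integral_const_mul,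
      integral_const_mul]
    simp
  have h4 : ∫ x, ((H : ℝ) * ∑ n ∈ Finset.range N, u n x) ^ 2 ∂μ =
      (H : ℝ) ^ 2 * (N : ℝ) ^ 2 * ∫ x, ((N : ℝ)⁻¹ * ∑ n ∈ Finset.range N, u n x) ^ 2 ∂μ := by
    rw [← integral_const_mul]
    congr 1
    funext x
    field_simp
  set Sκ := ∑ s ∈ Finset.range H, κ s with hSκ
  set I := ∫ x, ((N : ℝ)⁻¹ * ∑ n ∈ Finset.range N, u n x) ^ 2 ∂μ with hI
  have h5 : (H : ℝ) ^ 2 * (N : ℝ) ^ 2 * I ≤
      2 * (N * (N * (2 * H * Sκ))) + 8 * (H : ℝ) ^ 4 := by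
    rw [← h4]
    refine h1.trans ?_
    rw [h3]
    have := mul_le_mul_of_nonneg_left h2 hN.le
    linarith
  have hHN' : (H : ℝ) * H ≤ N := by exact_mod_cast hHN
  have h6 : I ≤ (2 * (N * (N * (2 * H * Sκ))) + 8 * (H : ℝ) ^ 4) / ((H : ℝ) ^ 2 * (N : ℝ) ^ 2) := by
    rw [le_div_iff₀ (by positivity)]
    linarith
  refine h6.trans ?_
  have e : (2 * (N * (N * (2 * H * Sκ))) + 8 * (H : ℝ) ^ 4) / ((H : ℝ) ^ 2 * (N : ℝ) ^ 2) =
      8 * ((H : ℝ) ^ 2 / (N : ℝ) ^ 2) + 4 / H * Sκ := by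
    field_simp
    ring
  rw [e]
  have h7 : (H : ℝ) ^ 2 / (N : ℝ) ^ 2 ≤ 1 / H := by
    rw [div_le_div_iff₀ (by positivity) hH']
    have h8 : (1 : ℝ) ≤ H := by exact_mod_cast hH
    have h9 : (H : ℝ) ^ 4 ≤ (N : ℝ) ^ 2 := by nlinarith
    nlinarith [pow_pos hH' 3]
  have h10 : 8 * ((H : ℝ) ^ 2 / (N : ℝ) ^ 2) ≤ 8 / (H : ℝ) := by
    have := mul_le_mul_of_nonneg_left h7 (show (0 : ℝ) ≤ 8 by norm_num)
    rw [mul_one_div] at this
    exact this
  linarith

/-- the lemma of Davenport, Erdős and LeVeque (deterministic part) -/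
theorem del_det {a : ℕ → ℝ} (ha : ∀ n, |a n| ≤ 1)
    (hs : Summable fun N : ℕ => ((N : ℝ)⁻¹ * ∑ n ∈ Finset.range N, a n) ^ 2 / N) :
    Tendsto (fun N : ℕ => (N : ℝ)⁻¹ * ∑ n ∈ Finset.range N, a n) atTop (𝓝 0) := by
  rw [Metric.tendsto_atTop]
  by_contra hcon
  push Not at hcon
  obtain ⟨δ₀, hδ₀, hfreq⟩ := hcon
  set δ := min δ₀ 1 with hδdef
  have hδ : 0 < δ := lt_min hδ₀ one_pos
  have hδ1 : δ ≤ 1 := min_le_right _ _
  have hfreq' : ∀ M : ℕ, ∃ N ≥ M, δ ≤ |(N : ℝ)⁻¹ * ∑ n ∈ Finset.range N, a n| := by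
    intro M
    obtain ⟨N, hN, h⟩ := hfreq M
    refine ⟨N, hN, (min_le_left _ _).trans ?_⟩
    rwa [Real.dist_eq, sub_zero] at h
  obtain ⟨s₀, hs₀⟩ := (summable_iff_vanishing_norm.1 hs) (9 * δ ^ 3 / 512) (by positivity)
  obtain ⟨N, hNge, hN⟩ := hfreq' (s₀.sup id + 1)
  have hNpos : 1 ≤ N := le_trans (Nat.le_add_left 1 _) hNge
  have hN' : (0 : ℝ) < N := by exact_mod_cast hNpos
  set m : ℕ := ⌊(N : ℝ) * δ / 4⌋₊ with hm
  have hm1 : (m : ℝ) ≤ N * δ / 4 := Nat.floor_le (by positivity)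
  have hm2 : (N : ℝ) * δ / 4 < m + 1 := Nat.lt_floor_add_one _
  have hdisj : Disjoint (Finset.Icc N (N + m)) s₀ := by
    rw [Finset.disjoint_left]
    intro i hi his
    have h1 := (Finset.mem_Icc.1 hi).1
    have h2 : i ≤ s₀.sup id := Finset.le_sup (f := id) his
    omega
  have h1 := hs₀ _ hdisj
  have h2 : ∀ i ∈ Finset.Icc N (N + m), 9 * δ ^ 2 / (128 * N) ≤
      ((i : ℝ)⁻¹ * ∑ n ∈ Finset.range i, a n) ^ 2 / i := by
    intro i hi
    obtain ⟨hi1, hi2⟩ := Finset.mem_Icc.1 hi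
    have hi1' : (N : ℝ) ≤ i := by exact_mod_cast hi1
    have hi2' : (i : ℝ) ≤ N + m := by exact_mod_cast hi2
    have hipos : (0 : ℝ) < i := lt_of_lt_of_le hN' hi1'
    have hi3 : (i : ℝ) ≤ 2 * N := by nlinarith
    have hS : 3 * (N * δ) / 4 ≤ |∑ n ∈ Finset.range i, a n| := by
      have h3 : N * δ ≤ |∑ n ∈ Finset.range N, a n| := by
        rw [abs_mul, abs_inv, abs_of_pos hN', ← div_eq_inv_mul, le_div_iff₀ hN'] at hN
        linarith
      have h4 : |∑ n ∈ Finset.range i, a n - ∑ n ∈ Finset.range N, a n| ≤ (i : ℝ) - N := by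
        have e : ∑ n ∈ Finset.range i, a n - ∑ n ∈ Finset.range N, a n =
            ∑ n ∈ Finset.Ico N i, a n := by
          rw [Finset.sum_Ico_eq_sub _ hi1]
        rw [e]
        refine (Finset.abs_sum_le_sum_abs _ _).trans ((Finset.sum_le_sum fun n _ => ha n).trans ?_)
        rw [Finset.sum_const, Nat.card_Ico, nsmul_eq_mul, mul_one, Nat.cast_sub hi1]
      have h5 := abs_sub_abs_le_abs_sub (∑ n ∈ Finset.range N, a n) (∑ n ∈ Finset.range i, a n)
      rw [abs_sub_comm] at h5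
      linarith
    have h6 : (3 * δ / 8) ≤ |(i : ℝ)⁻¹ * ∑ n ∈ Finset.range i, a n| := by
      rw [abs_mul, abs_inv, abs_of_pos hipos, ← div_eq_inv_mul, le_div_iff₀ hipos]
      nlinarith
    have h7 : (3 * δ / 8) ^ 2 ≤ ((i : ℝ)⁻¹ * ∑ n ∈ Finset.range i, a n) ^ 2 := by
      rw [← sq_abs ((i : ℝ)⁻¹ * _)]
      exact pow_le_pow_left₀ (by positivity) h6 2
    calc 9 * δ ^ 2 / (128 * N) = (3 * δ / 8) ^ 2 / (2 * N) := by
          field_simp
          ring
      _ ≤ ((i : ℝ)⁻¹ * ∑ n ∈ Finset.range i, a n) ^ 2 / i :=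
          div_le_div₀ (sq_nonneg _) h7 hipos hi3
  have h8 : 9 * δ ^ 3 / 512 ≤ ∑ i ∈ Finset.Icc N (N + m),
      ((i : ℝ)⁻¹ * ∑ n ∈ Finset.range i, a n) ^ 2 / i := by
    refine le_trans ?_ (Finset.sum_le_sum h2)
    rw [Finset.sum_const, Nat.card_Icc, nsmul_eq_mul]
    have e : ((N + m + 1 - N : ℕ) : ℝ) = m + 1 := by
      have : N + m + 1 - N = m + 1 := by omega
      rw [this]
      push_cast
      rfl
    rw [e]
    calc 9 * δ ^ 3 / 512 = (N * δ / 4) * (9 * δ ^ 2 / (128 * N)) := by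
          field_simp
          ring
      _ ≤ (m + 1) * (9 * δ ^ 2 / (128 * N)) :=
          mul_le_mul_of_nonneg_right hm2.le (by positivity)
  rw [Real.norm_eq_abs] at h1
  have h9 := le_abs_self (∑ i ∈ Finset.Icc N (N + m),
      ((i : ℝ)⁻¹ * ∑ n ∈ Finset.range i, a n) ^ 2 / i)
  linarith

/-- the lemma of Davenport, Erdős and LeVeque -/
theorem del {u : ℕ → X → ℝ} (hm : ∀ n, Measurable (u n)) (hb : ∀ n x, |u n x| ≤ 1)
    (hs : Summable fun N : ℕ =>
      (∫ x, ((N : ℝ)⁻¹ * ∑ n ∈ Finset.range N, u n x) ^ 2 ∂μ) / N) :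
    ∀ᵐ x ∂μ, Tendsto (fun N : ℕ => (N : ℝ)⁻¹ * ∑ n ∈ Finset.range N, u n x) atTop (𝓝 0) := by
  let F : ℕ → X → ℝ := fun N x => ((N : ℝ)⁻¹ * ∑ n ∈ Finset.range N, u n x) ^ 2 / N
  have hF0 : ∀ N x, 0 ≤ F N x := fun N x => by positivity
  have hFm : ∀ N, Measurable (F N) := fun N =>
    (((Finset.measurable_fun_sum _ fun n _ => hm n).const_mul _).pow_const 2).div_const _
  have hFi : ∀ N, Integrable (F N) μ := by
    intro N
    refine Integrable.of_bound (hFm N).aestronglyMeasurable 1 (Eventually.of_forall fun x => ?_)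
    rw [Real.norm_eq_abs, abs_of_nonneg (hF0 N x)]
    rcases Nat.eq_zero_or_pos N with rfl | hN
    · simp [F]
    · have hN' : (1 : ℝ) ≤ N := by exact_mod_cast hN
      have h1 : |(N : ℝ)⁻¹ * ∑ n ∈ Finset.range N, u n x| ≤ 1 := by
        rw [abs_mul, abs_inv, abs_of_pos (by linarith : (0 : ℝ) < N), inv_mul_le_iff₀
          (by linarith), mul_one]
        exact (Finset.abs_sum_le_sum_abs _ _).trans
          ((Finset.sum_le_sum fun n _ => hb n x).trans (by simp))
      have h2 : ((N : ℝ)⁻¹ * ∑ n ∈ Finset.range N, u n x) ^ 2 ≤ 1 := by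
        rw [← sq_abs]
        exact pow_le_one₀ (abs_nonneg _) h1
      exact (div_le_one (by linarith)).2 (h2.trans hN')
  have hFint : ∀ N, ∫ x, F N x ∂μ =
      (∫ x, ((N : ℝ)⁻¹ * ∑ n ∈ Finset.range N, u n x) ^ 2 ∂μ) / N := fun N => by
    show ∫ x, (((N : ℝ)⁻¹ * ∑ n ∈ Finset.range N, u n x) ^ 2 / N) ∂μ = _
    rw [integral_div]
  have hlin : ∫⁻ x, ∑' N, ENNReal.ofReal (F N x) ∂μ ≠ ⊤ := by
    rw [lintegral_tsum fun N => (hFm N).ennreal_ofReal.aemeasurable]
    have e : ∀ N, ∫⁻ x, ENNReal.ofReal (F N x) ∂μ = ENNReal.ofReal (∫ x, F N x ∂μ) := fun N =>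
      (ofReal_integral_eq_lintegral_ofReal (hFi N) (Eventually.of_forall (hF0 N))).symm
    simp only [e, hFint]
    exact hs.tsum_ofReal_ne_top
  have hae := ae_lt_top' (AEMeasurable.tsum fun N =>
    (hFm N).ennreal_ofReal.aemeasurable) hlin
  filter_upwards [hae] with x hx
  refine del_det (fun n => hb n x) ?_
  have h1 := ENNReal.summable_toReal hx.ne
  refine h1.congr fun N => ?_
  rw [ENNReal.toReal_ofReal (hF0 N x)]

end Pool.Agent.Q96.UN
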