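import Pool.Agent.Q96.UN.Sum

/-!
# Actions of the integers: cube correlations in the direction of the generator
-/

set_option autoImplicit false
set_option linter.unusedSectionVars false
set_option linter.unusedVariables false

open MeasureTheory Filter Topology

noncomputable section

namespace Pool.Agent.Q96.UN

variable {X : Type*} [MeasurableSpace X] {μ : Measure X} [IsProbabilityMeasure μ]

section gen

variable {A : Type*} [AddCommGroup A] {Φ : A → X → X}

theorem dd_meas (hΦ : Act μ Φ) {f : X → ℝ} (hf : Measurable f) (s : ℕ) (a : A) :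
    Measurable (dd Φ s a f) := hf.mul (hf.comp (hΦ.mp _).measurable)

theorem act_comm (hΦ : Act μ Φ) (a b : A) (x : X) : Φ a (Φ b x) = Φ b (Φ a x) := by
  rw [← hΦ.add, ← hΦ.add, add_comm]

theorem WD_inv (hΦ : Act μ Φ) (H : ℕ) (t : A) : ∀ (D : List A) {f : X → ℝ}, Measurable f →
    WD μ Φ H D (fun x => f (Φ t x)) = WD μ Φ H D f
  | [], f, hf => by
    unfold WD
    rw [int_comp hΦ t hf]
  | b :: D, f, hf => by
    unfold WD
    congr 1
    refine Finset.sum_congr rfl fun s _ => ?_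
    rw [← WD_inv hΦ H t D (dd_meas hΦ hf s b)]
    congr 1
    funext x
    unfold dd
    rw [act_comm hΦ]

theorem WD_scale {c : ℝ} (H : ℕ) : ∀ (D : List A) {f : X → ℝ},
    WD μ Φ H D (fun x => c * f x) = |c| ^ (2 ^ D.length) * WD μ Φ H D f
  | [], f => by
    unfold WD
    rw [integral_const_mul, abs_mul]
    simp
  | b :: D, f => by
    unfold WD
    have e : ∀ s, dd Φ s b (fun x => c * f x) = fun x => c ^ 2 * dd Φ s b f x := by
      intro s
      funext x
      unfold dd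
      ring
    simp only [e]
    have e2 : ∀ s, WD μ Φ H D (fun x => c ^ 2 * dd Φ s b f x) =
        |c| ^ (2 ^ (b :: D).length) * WD μ Φ H D (dd Φ s b f) := by
      intro s
      rw [WD_scale H D, abs_pow, ← pow_mul]
      congr 2
      rw [List.length_cons, pow_succ, mul_comm]
    simp only [e2]
    rw [← Finset.mul_sum]
    ring

end gen

variable {Φ : ℤ → X → X}

theorem WD_dir (hΦ : Act μ Φ) {c : ℕ} (hc : 1 ≤ c) {H : ℕ} (hH : 1 ≤ H) :
    ∀ (D : List ℤ), (∀ d ∈ D, d ≠ 0 ∧ d.natAbs ≤ c) → ∀ {f : X → ℝ}, Measurable f →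
    WD μ Φ H D f ≤ (c : ℝ) ^ D.length * WD μ Φ (c * H) (List.replicate D.length 1) f
  | [], _, f, hf => by
    unfold WD
    simp
  | b :: D, hD, f, hf => by
    have hb := hD b List.mem_cons_self
    have hc' : (0 : ℝ) < c := by exact_mod_cast hc
    have hH' : (0 : ℝ) < H := by exact_mod_cast hH
    have ih := fun s => WD_dir hΦ hc hH D (fun d hd => hD d (List.mem_cons_of_mem _ hd))
      (dd_meas hΦ hf s b)
    set b' := b.natAbs with hb'
    have hb1 : 1 ≤ b' := Nat.one_le_iff_ne_zero.2 (Int.natAbs_ne_zero.2 hb.1)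
    set Ψ : (X → ℝ) → ℝ := WD μ Φ (c * H) (List.replicate D.length 1) with hΨ
    have hΨ0 : ∀ g, 0 ≤ Ψ g := fun g => WD_nonneg _ _ _
    have h1 : ∀ s : ℕ, Ψ (dd Φ s b f) = Ψ (dd Φ (s * b') 1 f) := by
      intro s
      rcases Int.natAbs_eq b with h | h
      · congr 1
        funext x
        unfold dd
        congr 3
        rw [h, ← hb']
        simp
      · rw [hΨ, ← WD_inv hΦ (c * H) (s • b) _ (dd_meas hΦ hf (s * b') 1)]
        congr 1
        funext x
        unfold dd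
        rw [← hΦ.add]
        have e : ((s * b') • (1 : ℤ)) + s • b = 0 := by
          rw [h, ← hb']
          simp
        rw [e, hΦ.zero, mul_comm]
    have h2 : ∑ s ∈ Finset.range H, Ψ (dd Φ (s * b') 1 f) ≤
        ∑ t ∈ Finset.range (c * H), Ψ (dd Φ t 1 f) := by
      have e : ∑ s ∈ Finset.range H, Ψ (dd Φ (s * b') 1 f) =
          ∑ t ∈ (Finset.range H).image (fun s => s * b'), Ψ (dd Φ t 1 f) := by
        rw [Finset.sum_image]
        intro s _ s' _ hss
        exact Nat.eq_of_mul_eq_mul_right hb1 hss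
      rw [e]
      refine Finset.sum_le_sum_of_subset_of_nonneg ?_ fun t _ _ => hΨ0 _
      intro t ht
      obtain ⟨s, hs, rfl⟩ := Finset.mem_image.1 ht
      have hs' := Finset.mem_range.1 hs
      rw [Finset.mem_range]
      calc s * b' ≤ s * c := Nat.mul_le_mul_left s hb.2
        _ < H * c := Nat.mul_lt_mul_of_pos_right hs' hc
        _ = c * H := mul_comm _ _
    calc WD μ Φ H (b :: D) f = (H : ℝ)⁻¹ * ∑ s ∈ Finset.range H, WD μ Φ H D (dd Φ s b f) := rfl
      _ ≤ (H : ℝ)⁻¹ * ∑ s ∈ Finset.range H, (c : ℝ) ^ D.length * Ψ (dd Φ s b f) :=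
          mul_le_mul_of_nonneg_left (Finset.sum_le_sum fun s _ => ih s) (by positivity)
      _ = (H : ℝ)⁻¹ * ((c : ℝ) ^ D.length * ∑ s ∈ Finset.range H, Ψ (dd Φ (s * b') 1 f)) := by
          rw [← Finset.mul_sum]
          simp only [h1]
      _ ≤ (H : ℝ)⁻¹ * ((c : ℝ) ^ D.length * ∑ t ∈ Finset.range (c * H), Ψ (dd Φ t 1 f)) := by
          gcongr
      _ = (c : ℝ) ^ (b :: D).length *
          WD μ Φ (c * H) (List.replicate (b :: D).length 1) f := by
          rw [List.length_cons, List.replicate_succ]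
          show _ = (c : ℝ) ^ (D.length + 1) * (((c * H : ℕ) : ℝ)⁻¹ *
            ∑ t ∈ Finset.range (c * H), Ψ (dd Φ t 1 f))
          push_cast
          rw [pow_succ]
          field_simp

theorem WD_dir_summable (hΦ : Act μ Φ) {D : List ℤ} (hD : ∀ d ∈ D, d ≠ 0) {f : X → ℝ}
    (hf : Measurable f) {q : ℝ} (hq : 0 ≤ q)
    (hs : Summable fun e : ℕ => WD μ Φ (2 ^ e) (List.replicate D.length 1) f ^ q) :
    Summable fun e : ℕ => WD μ Φ (2 ^ e) D f ^ q := by
  obtain ⟨c₀, hc₀⟩ : ∃ c₀ : ℕ, ∀ d ∈ D, d.natAbs ≤ 2 ^ c₀ := by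
    refine ⟨(D.map Int.natAbs).sum, fun d hd => ?_⟩
    refine (Nat.lt_two_pow_self).le.trans (Nat.pow_le_pow_right (by norm_num) ?_)
    exact List.le_sum_of_mem (List.mem_map_of_mem hd)
  have h1 : ∀ e : ℕ, WD μ Φ (2 ^ e) D f ≤ ((2 ^ c₀ : ℕ) : ℝ) ^ D.length *
      WD μ Φ (2 ^ (e + c₀)) (List.replicate D.length 1) f := by
    intro e
    have h2 := WD_dir (μ := μ) hΦ (c := 2 ^ c₀) Nat.one_le_two_pow (H := 2 ^ e)
      Nat.one_le_two_pow D (fun d hd => ⟨hD d hd, hc₀ d hd⟩) hf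
    rwa [← pow_add, add_comm c₀ e] at h2
  have h3 := ((summable_nat_add_iff c₀).2 hs).mul_left ((((2 ^ c₀ : ℕ) : ℝ) ^ D.length) ^ q)
  refine Summable.of_nonneg_of_le (fun e => ?_) (fun e => ?_) h3
  · have := WD_nonneg (μ := μ) (Φ := Φ) (2 ^ e) D f
    positivity
  · show WD μ Φ (2 ^ e) D f ^ q ≤ (((2 ^ c₀ : ℕ) : ℝ) ^ D.length) ^ q *
      WD μ Φ (2 ^ (e + c₀)) (List.replicate D.length 1) f ^ q
    rw [← Real.mul_rpow (by positivity) (WD_nonneg _ _ _)]
    exact Real.rpow_le_rpow (WD_nonneg _ _ _) (h1 e) hq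

end Pool.Agent.Q96.UN
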